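import Pool.Agent.V8H47.DDom.Lattice

/-! The lattice of the integral vectors with even sum. -/

open Matrix Finset

namespace Pool.Agent.V8H47.DDom

open Pool.Agent.H160R3.Herm Pool.Agent.TH220.HG

/-- the basis `e_j - e_{j+1}`, `e_{n-1} + e_0` (`n = N + 1`) -/
def dmat (N : ℕ) : Matrix (Fin (N + 1)) (Fin (N + 1)) ℤ :=
  Matrix.of fun i j => (if i = j then 1 else 0) +
    (if i = j + 1 then (if j = Fin.last N then 1 else -1) else 0)

theorem zero_sub_one (N : ℕ) : (0 : Fin (N + 1)) - 1 = Fin.last N := by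
  rw [zero_sub]
  exact (eq_neg_of_add_eq_zero_left (Fin.last_add_one N)).symm

theorem dmat_mulVec (N : ℕ) (y : Fin (N + 1) → ℤ) (i : Fin (N + 1)) :
    (dmat N *ᵥ y) i = y i + (if i = 0 then y (Fin.last N) else -y (i - 1)) := by
  have h1 : ∀ j, dmat N i j * y j = (if i = j then y j else 0) +
      (if j = i - 1 then (if i = 0 then y j else -y j) else 0) := by
    intro j
    have e : i = j + 1 ↔ j = i - 1 := by
      constructor
      · intro h; rw [h]; simp
      · intro h; rw [h]; simp
    have e2 : j = i - 1 → (j = Fin.last N ↔ i = 0) := by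
      intro h
      have h3 : i = j + 1 := e.2 h
      constructor
      · intro h4; rw [h3, h4]; simp
      · intro h4
        rw [h, h4, zero_sub_one]
    simp only [dmat, Matrix.of_apply]
    by_cases c1 : i = j <;> by_cases c2 : j = i - 1
    · rw [if_pos c1, if_pos (e.2 c2), if_pos c1, if_pos c2]
      by_cases c3 : i = 0
      · rw [if_pos ((e2 c2).2 c3), if_pos c3]; ring
      · rw [if_neg (fun h => c3 ((e2 c2).1 h)), if_neg c3]; ring
    · rw [if_pos c1, if_neg (fun h => c2 (e.1 h)), if_pos c1, if_neg c2]; ring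
    · rw [if_neg c1, if_pos (e.2 c2), if_neg c1, if_pos c2]
      by_cases c3 : i = 0
      · rw [if_pos ((e2 c2).2 c3), if_pos c3]; ring
      · rw [if_neg (fun h => c3 ((e2 c2).1 h)), if_neg c3]; ring
    · rw [if_neg c1, if_neg (fun h => c2 (e.1 h)), if_neg c1, if_neg c2]; ring
  rw [Matrix.mulVec, dotProduct, Finset.sum_congr rfl fun j _ => h1 j, Finset.sum_add_distrib,
    Finset.sum_ite_eq, Finset.sum_ite_eq']
  simp only [Finset.mem_univ, if_true]
  by_cases c3 : i = 0
  · rw [if_pos c3, if_pos c3, c3, zero_sub_one]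
  · rw [if_neg c3, if_neg c3]

theorem even_dmat (N : ℕ) (y : Fin (N + 1) → ℤ) : Even (∑ i, (dmat N *ᵥ y) i) := by
  refine ⟨y (Fin.last N), ?_⟩
  have h1 : ∀ i, (dmat N *ᵥ y) i = y i - y (i - 1) +
      (if i = 0 then 2 * y (Fin.last N) else 0) := by
    intro i
    rw [dmat_mulVec]
    split_ifs with h
    · have : (i - 1 : Fin (N + 1)) = Fin.last N := by rw [h, zero_sub_one]
      rw [this]; ring
    · ring
  rw [Finset.sum_congr rfl fun i _ => h1 i, Finset.sum_add_distrib, Finset.sum_sub_distrib,
    Finset.sum_ite_eq']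
  have h2 : ∑ i, y (i - 1) = ∑ i, y i :=
    Equiv.sum_comp (Equiv.subRight (1 : Fin (N + 1))) y
  rw [h2]
  simp
  ring

theorem exists_of_even (N : ℕ) (x : Fin (N + 1) → ℤ) (hx : Even (∑ i, x i)) :
    ∃ y, dmat N *ᵥ y = x := by
  obtain ⟨t, ht⟩ := hx
  let X : ℕ → ℤ := fun k => if h : k < N + 1 then x ⟨k, h⟩ else 0
  have hX : ∑ k ∈ Finset.range (N + 1), X k = t + t := by
    rw [← ht, Finset.sum_range]
    apply Finset.sum_congr rfl
    intro i _
    simp only [X]
    rw [dif_pos i.is_lt]
  refine ⟨fun j => -t + ∑ k ∈ Finset.range (j + 1), X k, ?_⟩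
  ext i
  rw [dmat_mulVec]
  split_ifs with h
  · subst h
    simp only [Fin.val_last, hX]
    simp [X]
  · obtain ⟨k, rfl⟩ := Fin.exists_succ_eq.2 h
    have h1 : (k.succ - 1 : Fin (N + 1)) = k.castSucc := by
      rw [sub_eq_iff_eq_add]
      simp
    rw [h1]
    simp only [Fin.val_succ, Fin.val_castSucc]
    rw [Finset.sum_range_succ _ ((k : ℕ) + 1)]
    have h2 : X ((k : ℕ) + 1) = x k.succ := by
      simp only [X]
      rw [dif_pos (by omega)]
      rfl
    rw [h2]
    ring

theorem dmat_det (N : ℕ) : (dmat N).det ≠ 0 ∧ |(dmat N).det| ≤ 2 := by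
  let C : Matrix (Fin (N + 1)) (Fin (N + 1)) ℤ :=
    Matrix.of fun i j => if i = j then (if i = 0 then 2 else 1) else if i = 0 then -1 else 0
  have hcol : ∀ j, ∃ y, dmat N *ᵥ y = fun i => C i j := by
    intro j
    apply exists_of_even
    by_cases hj : j = 0
    · subst hj
      have : ∑ i, C i 0 = 2 := by
        rw [Finset.sum_eq_single 0]
        · simp [C]
        · intro b _ hb
          simp [C, hb]
        · simp
      rw [this]
      exact ⟨1, rfl⟩
    · have : ∑ i, C i j = 0 := by
        have h1 : ∀ i, C i j = (if i = j then 1 else 0) + (if i = 0 then -1 else 0) := by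
          intro i
          by_cases h1 : i = j
          · by_cases h2 : i = 0
            · exact absurd (h1.symm.trans h2) hj
            · simp [C, h1, hj]
          · by_cases h2 : i = 0
            · simp [C, h2, Ne.symm hj]
            · simp [C, h1, h2]
        rw [Finset.sum_congr rfl fun i _ => h1 i, Finset.sum_add_distrib, Finset.sum_ite_eq',
          Finset.sum_ite_eq']
        simp
      rw [this]
      exact ⟨0, rfl⟩
  choose Y hY using hcol
  have hC : dmat N * (Matrix.of fun i j => Y j i) = C := by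
    ext i j
    have := congrFun (hY j) i
    rw [← this]
    rfl
  have hCdet : C.det = 2 := by
    have htri : C.BlockTriangular id := by
      intro i j hij
      simp only [id] at hij
      have h1 : i ≠ j := hij.ne'
      have h2 : i ≠ 0 := fun h => by rw [h] at hij; exact absurd hij (Fin.not_lt_zero j)
      simp [C, h1, h2]
    rw [Matrix.det_of_isUpperTriangular htri, Fin.prod_univ_succ]
    simp [C]
  have hdet : (dmat N).det * (Matrix.of fun i j => Y j i).det = 2 := by
    rw [← Matrix.det_mul, hC, hCdet]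
  refine ⟨fun h => by rw [h] at hdet; simp at hdet, ?_⟩
  exact Int.le_of_dvd (by norm_num) ((abs_dvd _ _).2 (Dvd.intro _ hdet))

/-- the basis as a real matrix -/
def dreal (N : ℕ) : Matrix (Fin (N + 1)) (Fin (N + 1)) ℝ :=
  (dmat N).map (Int.cast : ℤ → ℝ)

theorem dreal_det (N : ℕ) : (dreal N).det ≠ 0 := by
  rw [dreal, det_map_cast]
  exact_mod_cast (dmat_det N).1

theorem dreal_nsq (N : ℕ) (y : Fin (N + 1) → ℤ) :
    nsq (dreal N) y = ((∑ i, (dmat N *ᵥ y) i ^ 2 : ℤ) : ℝ) := by
  unfold nsq dreal
  rw [cast_mulVec]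
  push_cast
  rfl

theorem two_le_nsq (N : ℕ) {y : Fin (N + 1) → ℤ} (hy : y ≠ 0) : 2 ≤ nsq (dreal N) y := by
  rw [dreal_nsq]
  have h0 : dmat N *ᵥ y ≠ 0 := fun h => hy (Matrix.eq_zero_of_mulVec_eq_zero (dmat_det N).1 h)
  set z := dmat N *ᵥ y with hz
  have h1 : 0 < ∑ i, z i ^ 2 := by
    obtain ⟨i, hi⟩ := Function.ne_iff.1 h0
    refine Finset.sum_pos' (fun _ _ => sq_nonneg _) ⟨i, Finset.mem_univ i, ?_⟩
    have hi' : z i ≠ 0 := hi
    positivity
  have h2 : Even (∑ i, z i ^ 2) := by
    have h3 : Even (∑ i, (z i ^ 2 - z i)) := by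
      apply Finset.even_sum
      intro i _
      have : z i ^ 2 - z i = z i * (z i - 1) := by ring
      rw [this]
      exact Int.even_mul_pred_self (z i)
    rw [Finset.sum_sub_distrib] at h3
    have h4 := even_dmat N y
    have := h3.add h4
    rwa [sub_add_cancel] at this
  obtain ⟨t, ht⟩ := h2
  rw [ht] at h1 ⊢
  have : (1 : ℤ) ≤ t := by omega
  have : (2 : ℤ) ≤ t + t := by omega
  exact_mod_cast this

theorem abs_dreal {N : ℕ} (hN : 0 < N) (i j : Fin (N + 1)) :
    |dreal N i j| = (if i = j then 1 else 0) + (if i = j + 1 then 1 else 0) := by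
  have hne : j ≠ j + 1 := by
    intro h
    have h1 : (1 : Fin (N + 1)) = 0 := by
      have := congrArg (fun t => t - j) h
      simpa using this.symm
    have h2 := congrArg Fin.val h1
    rw [Fin.val_one', Fin.val_zero, Nat.mod_eq_of_lt (by omega)] at h2
    omega
  simp only [dreal, Matrix.map_apply, dmat, Matrix.of_apply]
  by_cases c1 : i = j
  · have c2 : i ≠ j + 1 := by rw [c1]; exact hne
    simp [c1, hne]
  · by_cases c2 : i = j + 1
    · rw [if_neg c1, if_pos c2, if_neg c1, if_pos c2]
      split_ifs <;> simp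
    · simp [c1, c2]

theorem sum_row {N : ℕ} (hN : 0 < N) (i : Fin (N + 1)) : ∑ j, |dreal N i j| = 2 := by
  rw [Finset.sum_congr rfl fun j _ => abs_dreal hN i j, Finset.sum_add_distrib, Finset.sum_ite_eq]
  have h1 : ∀ j : Fin (N + 1), (if i = j + 1 then (1 : ℝ) else 0) = if j = i - 1 then 1 else 0 := by
    intro j
    have e : i = j + 1 ↔ j = i - 1 := by
      constructor
      · intro h; rw [h]; simp
      · intro h; rw [h]; simp
    simp only [e]
  rw [Finset.sum_congr rfl fun j _ => h1 j, Finset.sum_ite_eq']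
  norm_num

theorem sum_col {N : ℕ} (hN : 0 < N) (j : Fin (N + 1)) : ∑ i, |dreal N i j| = 2 := by
  rw [Finset.sum_congr rfl fun i _ => abs_dreal hN i j, Finset.sum_add_distrib, Finset.sum_ite_eq',
    Finset.sum_ite_eq']
  norm_num

theorem gram_dreal {N : ℕ} (hN : 0 < N) (j : Fin (N + 1)) : gram (dreal N) j j = 2 := by
  rw [gram, Matrix.mul_apply, ← sum_col hN j]
  apply Finset.sum_congr rfl
  intro i _
  rw [Matrix.transpose_apply, ← abs_mul_abs_self, abs_dreal hN]
  have hne : i = j → i ≠ j + 1 := by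
    intro h h'
    have h1 := abs_dreal hN i j
    rw [if_pos h, if_pos h'] at h1
    have h2 : |dreal N i j| ≤ 1 ∨ True := Or.inr trivial
    have h3 : (1 : Fin (N + 1)) = 0 := by
      have := congrArg (fun t => t - j) (h.symm.trans h')
      simpa using this.symm
    have h4 := congrArg Fin.val h3
    rw [Fin.val_one', Fin.val_zero, Nat.mod_eq_of_lt (by omega)] at h4
    omega
  by_cases c1 : i = j
  · rw [if_pos c1, if_neg (hne c1)]; norm_num
  · rw [if_neg c1]
    split_ifs <;> norm_num

theorem dominant_dreal {N : ℕ} (hN : 0 < N) : Dominant (dreal N) := by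
  intro j
  have h1 : ∑ l, |gram (dreal N) j l| ≤ 4 := by
    calc ∑ l, |gram (dreal N) j l| ≤ ∑ l, ∑ i, |dreal N i j| * |dreal N i l| := by
          apply Finset.sum_le_sum
          intro l _
          rw [gram, Matrix.mul_apply]
          refine (Finset.abs_sum_le_sum_abs _ _).trans (le_of_eq ?_)
          apply Finset.sum_congr rfl
          intro i _
          rw [Matrix.transpose_apply, abs_mul]
      _ = ∑ i, |dreal N i j| * ∑ l, |dreal N i l| := by
          rw [Finset.sum_comm]
          apply Finset.sum_congr rfl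
          intro i _
          rw [Finset.mul_sum]
      _ = ∑ i, |dreal N i j| * 2 := by
          apply Finset.sum_congr rfl
          intro i _
          rw [sum_row hN]
      _ = 4 := by rw [← Finset.sum_mul, sum_col hN]; norm_num
  rw [← Finset.add_sum_erase _ _ (Finset.mem_univ j), gram_dreal hN] at h1
  rw [gram_dreal hN]
  rw [abs_of_pos (by norm_num : (0 : ℝ) < 2)] at h1
  linarith

theorem minSq_dreal (N : ℕ) (hN : 0 < N) : minSq (dreal N) = 2 := by
  apply le_antisymm
  · have h1 := minSq_le (dreal N) (Pi.single 0 1) (by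
      intro h
      have := congrFun h 0
      simp at this)
    have h2 : nsq (dreal N) (Pi.single 0 1) = 2 := by
      rw [← q_gram, q_eq, Finset.sum_eq_single 0, Finset.sum_eq_single 0]
      · rw [gram_dreal hN]; simp
      · intro j _ hj
        simp [Pi.single_eq_of_ne hj]
      · simp
      · intro j _ hj
        simp [Pi.single_eq_of_ne hj]
      · simp
    exact h1.trans h2.le
  · exact le_minSq (Nat.succ_pos N) fun w hw => two_le_nsq N hw

theorem gam_dreal {N : ℕ} (hN : 2 ≤ N) :
    gam (dreal N) = 2 / (4 : ℝ) ^ ((1 : ℝ) / (N + 1 : ℕ)) := by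
  apply le_antisymm
  · exact (dominant_dreal (by omega)).bound (by omega) (dreal_det N)
  · rw [gam, minSq_dreal N (by omega)]
    have h0 : 0 < |(dreal N).det| := abs_pos.mpr (dreal_det N)
    apply div_le_div_of_nonneg_left (by norm_num) (Real.rpow_pos_of_pos h0 _)
    have h1 : |(dreal N).det| ≤ 2 := by
      rw [dreal, det_map_cast]
      exact_mod_cast (dmat_det N).2
    calc |(dreal N).det| ^ ((2 : ℝ) / (N + 1 : ℕ)) ≤ 2 ^ ((2 : ℝ) / (N + 1 : ℕ)) :=
          Real.rpow_le_rpow h0.le h1 (by positivity)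
      _ = (4 : ℝ) ^ ((1 : ℝ) / (N + 1 : ℕ)) := by
          have : (4 : ℝ) = 2 ^ (2 : ℝ) := by norm_num
          rw [this, ← Real.rpow_mul (by norm_num)]
          congr 1
          ring

end Pool.Agent.V8H47.DDom
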