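import Pool.Agent.V8H47.DDom.Merge

/-! Lower bounds for the determinants of diagonally dominant forms. -/

open Matrix Finset

namespace Pool.Agent.V8H47.DDom

theorem diag_sum_ge {n : ℕ} {A : Matrix (Fin n) (Fin n) ℝ} {m : ℝ} (hm : MinGe A m) :
    n * m ≤ ∑ i, A i i := by
  have h1 : ∑ _i : Fin n, m ≤ ∑ i, A i i := Finset.sum_le_sum fun i _ => hm.diag i
  simpa using h1

theorem all_sum_ge {n : ℕ} {A : Matrix (Fin (n + 1)) (Fin (n + 1)) ℝ} {m : ℝ} (hm : MinGe A m) :
    m ≤ ∑ i, ∑ j, A i j := by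
  have h1 := hm (fun _ => 1) (by
    intro h
    have := congrFun h 0
    simp at this)
  rw [q_eq] at h1
  simpa using h1

/-- Forms with an obtuse superbase. -/
theorem off_bound {m : ℝ} (hm0 : 0 < m) : ∀ (n : ℕ) {A : Matrix (Fin n) (Fin n) ℝ}, A.PosDef →
    DD A → OffNonpos A → MinGe A m → (n + 1) * (m / 2) ^ n ≤ A.det := by
  intro n
  induction n with
  | zero =>
    intro A _ _ _ _
    simp
  | succ n ih =>
    intro A hA h ho hm
    obtain ⟨A', R, hA', h', hm', ho', hdet, hR⟩ := step hA h hm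
    have h1 := ih hA' h' (ho' ho) hm'
    have hd' := hA'.det_pos
    have hd := hA.det_pos
    have hR0 : 0 < R := by
      rw [hdet] at hd'
      exact (mul_pos_iff_of_pos_right hd).1 hd'
    have h2 := weight_off h ho
    have h3 := diag_sum_ge hm
    have h4 := all_sum_ge hm
    have h5 : (n + 2) * m / 2 ≤ weight A := by
      push_cast at h3
      linarith
    have h6 : R * ((n + 2) * m / 2) ≤ n + 1 := by
      have := mul_le_mul_of_nonneg_left h5 hR0.le
      push_cast at hR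
      linarith
    have h7 : R * (((n + 1 : ℕ) + 1 : ℝ) * (m / 2) ^ (n + 1)) ≤ R * A.det := by
      rw [← hdet]
      refine le_trans (le_of_eq ?_) ((mul_le_mul_of_nonneg_right h6
        (pow_nonneg (by linarith) n : (0 : ℝ) ≤ (m / 2) ^ n)).trans h1)
      push_cast
      ring
    exact le_of_mul_le_mul_left h7 hR0

theorem dd_step {n : ℕ} {A : Matrix (Fin (n + 1)) (Fin (n + 1)) ℝ} (hA : A.PosDef) (h : DD A)
    {m : ℝ} (hm0 : 0 < m) (hm : MinGe A m) : ∃ A' : Matrix (Fin n) (Fin n) ℝ, A'.PosDef ∧ DD A' ∧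
      MinGe A' m ∧ m / 2 * A'.det ≤ A.det := by
  obtain ⟨A', R, hA', h', hm', _, hdet, hR⟩ := step hA h hm
  refine ⟨A', hA', h', hm', ?_⟩
  have hd' := hA'.det_pos
  have hd := hA.det_pos
  have hR0 : 0 < R := by
    rw [hdet] at hd'
    exact (mul_pos_iff_of_pos_right hd).1 hd'
  have h2 := weight_ge h
  have h3 := diag_sum_ge hm
  have h5 : (n + 1 : ℕ) * m / 2 ≤ weight A := by linarith
  have h6 : R * ((n + 1 : ℕ) * m / 2) ≤ (n + 1 : ℕ) :=
    (mul_le_mul_of_nonneg_left h5 hR0.le).trans hR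
  have h7 : (0 : ℝ) < (n + 1 : ℕ) := by positivity
  have h8 : R * (m / 2) ≤ 1 := by
    have : (n + 1 : ℕ) * (R * (m / 2)) ≤ (n + 1 : ℕ) * 1 := by linarith
    exact le_of_mul_le_mul_left this h7
  rw [hdet]
  calc m / 2 * (R * A.det) = (R * (m / 2)) * A.det := by ring
    _ ≤ 1 * A.det := mul_le_mul_of_nonneg_right h8 hd.le
    _ = A.det := one_mul _

/-! ### Three dimensions -/

/-- the form in another basis of a sublattice -/
noncomputable def cong {n : ℕ} (U : Matrix (Fin n) (Fin n) ℤ) (A : Matrix (Fin n) (Fin n) ℝ) :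
    Matrix (Fin n) (Fin n) ℝ :=
  (U.map (Int.cast : ℤ → ℝ))ᵀ * A * U.map (Int.cast : ℤ → ℝ)

theorem det_map_cast {n : ℕ} (U : Matrix (Fin n) (Fin n) ℤ) :
    (U.map (Int.cast : ℤ → ℝ)).det = (U.det : ℝ) := by
  have := RingHom.map_det (Int.castRingHom ℝ) U
  simpa using this.symm

theorem det_cong {n : ℕ} (U : Matrix (Fin n) (Fin n) ℤ) (A : Matrix (Fin n) (Fin n) ℝ) :
    (cong U A).det = (U.det : ℝ) ^ 2 * A.det := by
  rw [cong, Matrix.det_mul, Matrix.det_mul, Matrix.det_transpose, det_map_cast]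
  ring

theorem posDef_cong {n : ℕ} {U : Matrix (Fin n) (Fin n) ℤ} (hU : U.det ≠ 0)
    {A : Matrix (Fin n) (Fin n) ℝ} (hA : A.PosDef) : (cong U A).PosDef := by
  have hinj : Function.Injective (U.map (Int.cast : ℤ → ℝ)).mulVec := by
    apply Matrix.mulVec_injective_of_isUnit
    rw [Matrix.isUnit_iff_isUnit_det, det_map_cast, isUnit_iff_ne_zero]
    exact_mod_cast hU
  have := hA.conjTranspose_mul_mul_same hinj
  rw [Matrix.conjTranspose_eq_transpose_of_trivial] at this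
  exact this

theorem cast_mulVec {n : ℕ} (U : Matrix (Fin n) (Fin n) ℤ) (y : Fin n → ℤ) :
    (U.map (Int.cast : ℤ → ℝ)) *ᵥ (fun k => (y k : ℝ)) = fun k => ((U *ᵥ y) k : ℝ) := by
  ext k
  simp [Matrix.mulVec, dotProduct]

theorem q_cong {n : ℕ} (U : Matrix (Fin n) (Fin n) ℤ) (A : Matrix (Fin n) (Fin n) ℝ)
    (y : Fin n → ℤ) : q (cong U A) y = q A (U *ᵥ y) := by
  unfold q
  rw [← cast_mulVec, cong, ← Matrix.mulVec_mulVec, ← Matrix.mulVec_mulVec, Matrix.mulVec_transpose,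
    dotProduct_comm, ← Matrix.dotProduct_mulVec, dotProduct_comm]

theorem minGe_cong {n : ℕ} {U : Matrix (Fin n) (Fin n) ℤ} (hU : U.det ≠ 0)
    {A : Matrix (Fin n) (Fin n) ℝ} {m : ℝ} (hm : MinGe A m) : MinGe (cong U A) m := by
  intro y hy
  rw [q_cong]
  apply hm
  intro h
  exact hy (Matrix.eq_zero_of_mulVec_eq_zero hU h)

theorem dd_of_rows {n : ℕ} {A : Matrix (Fin n) (Fin n) ℝ} (ho : OffNonpos A)
    (h : ∀ i, 0 ≤ ∑ j, A i j) : DD A := by
  intro i
  have h1 : ∀ j, |A i j| + A i j = if j = i then |A i i| + A i i else 0 := by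
    intro j
    split_ifs with hj
    · subst hj; rfl
    · rw [abs_of_nonpos (ho i j (Ne.symm hj))]; ring
  have h2 := Finset.sum_congr rfl fun j (_ : j ∈ (Finset.univ : Finset (Fin n))) => h1 j
  rw [Finset.sum_add_distrib, Finset.sum_ite_eq'] at h2
  simp only [Finset.mem_univ, if_true] at h2
  have h3 : 0 ≤ A i i := by
    have h4 : ∑ j, A i j ≤ ∑ j, if j = i then A i i else 0 := by
      apply Finset.sum_le_sum
      intro j _
      split_ifs with hj
      · rw [hj]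
      · exact ho i j (Ne.symm hj)
    rw [Finset.sum_ite_eq'] at h4
    simp only [Finset.mem_univ, if_true] at h4
    exact (h i).trans h4
  rw [abs_of_nonneg h3] at h2
  have := h i
  linarith

/-- the symmetric matrix of size 3 with the given entries -/
noncomputable def m3 (a b c x y z : ℝ) : Matrix (Fin 3) (Fin 3) ℝ :=
  !![a, x, y; x, b, z; y, z, c]

theorem det_m3 (a b c x y z : ℝ) :
    (m3 a b c x y z).det = a * b * c + 2 * (x * y * z) - a * z ^ 2 - b * y ^ 2 - c * x ^ 2 := by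
  rw [m3, Matrix.det_fin_three]
  simp
  ring

theorem base3_nonpos {m : ℝ} (hm0 : 0 < m) {a b c x y z : ℝ} (hA : (m3 a b c x y z).PosDef)
    (hx : x ≤ 0) (hy : y ≤ 0) (hz : z ≤ 0) (h1 : 0 ≤ a + x + y) (h2 : 0 ≤ b + x + z)
    (h3 : 0 ≤ c + y + z) (hm : MinGe (m3 a b c x y z) m) :
    4 * (m / 2) ^ 3 ≤ (m3 a b c x y z).det := by
  have ho : OffNonpos (m3 a b c x y z) := by
    intro i j hij
    fin_cases i <;> fin_cases j <;> simp [m3] at hij ⊢ <;> assumption
  have hd : DD (m3 a b c x y z) := by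
    apply dd_of_rows ho
    intro i
    rw [Fin.sum_univ_three]
    fin_cases i <;> simp [m3] <;> linarith
  have := off_bound hm0 3 hA hd ho hm
  norm_num at this ⊢
  linarith

theorem cong_m3 (u : Matrix (Fin 3) (Fin 3) ℤ) {a b c x y z a' b' c' x' y' z' : ℝ}
    (h : cong u (m3 a b c x y z) = m3 a' b' c' x' y' z') (hu : u.det = 1 ∨ u.det = -1)
    {m : ℝ} (hA : (m3 a b c x y z).PosDef) (hm : MinGe (m3 a b c x y z) m) :
    (m3 a' b' c' x' y' z').PosDef ∧ MinGe (m3 a' b' c' x' y' z') m ∧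
      (m3 a' b' c' x' y' z').det = (m3 a b c x y z).det := by
  have hu0 : u.det ≠ 0 := by rcases hu with h | h <;> rw [h] <;> decide
  rw [← h]
  refine ⟨posDef_cong hu0 hA, minGe_cong hu0 hm, ?_⟩
  rw [det_cong]
  rcases hu with h | h <;> rw [h] <;> simp

theorem cong_entries (u : Matrix (Fin 3) (Fin 3) ℤ) (a b c x y z : ℝ) (i j : Fin 3) :
    cong u (m3 a b c x y z) i j =
      (u 0 i * a + u 1 i * x + u 2 i * y) * u 0 j + (u 0 i * x + u 1 i * b + u 2 i * z) * u 1 j +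
        (u 0 i * y + u 1 i * z + u 2 i * c) * u 2 j := by
  rw [cong, Matrix.mul_apply, Fin.sum_univ_three, Matrix.mul_apply, Matrix.mul_apply,
    Matrix.mul_apply, Fin.sum_univ_three, Fin.sum_univ_three, Fin.sum_univ_three]
  simp [m3]

/-- the case of positive entries outside of the diagonal, the smallest one being that at `(0, 2)` -/
theorem base3_core {m : ℝ} (hm0 : 0 < m) {a b c x y z : ℝ} (hA : (m3 a b c x y z).PosDef)
    (hx : 0 ≤ x) (hy : 0 ≤ y) (hz : 0 ≤ z) (hyx : y ≤ x) (hyz : y ≤ z) (h1 : x + y ≤ a)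
    (h2 : x + z ≤ b) (h3 : y + z ≤ c) (hm : MinGe (m3 a b c x y z) m) :
    4 * (m / 2) ^ 3 ≤ (m3 a b c x y z).det := by
  have hc : cong !![-1, 1, 0; 0, -1, 0; 0, 0, 1] (m3 a b c x y z) =
      m3 a (a + b - 2 * x) c (x - a) (-y) (y - z) := by
    ext i j
    rw [cong_entries]
    fin_cases i <;> fin_cases j <;> simp [m3] <;> ring
  obtain ⟨g1, g2, g3⟩ := cong_m3 _ hc (Or.inl (by decide)) hA hm
  rw [← g3]
  exact base3_nonpos hm0 g1 (by linarith) (by linarith) (by linarith) (by linarith) (by linarith)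
    (by linarith) g2

theorem base3_nonneg {m : ℝ} (hm0 : 0 < m) {a b c x y z : ℝ} (hA : (m3 a b c x y z).PosDef)
    (hx : 0 ≤ x) (hy : 0 ≤ y) (hz : 0 ≤ z) (h1 : x + y ≤ a)
    (h2 : x + z ≤ b) (h3 : y + z ≤ c) (hm : MinGe (m3 a b c x y z) m) :
    4 * (m / 2) ^ 3 ≤ (m3 a b c x y z).det := by
  have k1 : y ≤ x ∧ y ≤ z ∨ x ≤ y ∧ x ≤ z ∨ z ≤ x ∧ z ≤ y := by
    rcases le_total x y with h | h
    · rcases le_total x z with h' | h'
      · exact Or.inr (Or.inl ⟨h, h'⟩)
      · exact Or.inr (Or.inr ⟨h', h'.trans h⟩)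
    · rcases le_total y z with h' | h'
      · exact Or.inl ⟨h, h'⟩
      · exact Or.inr (Or.inr ⟨h'.trans h, h'⟩)
  rcases k1 with ⟨k1, k2⟩ | ⟨k1, k2⟩ | ⟨k1, k2⟩
  · exact base3_core hm0 hA hx hy hz k1 k2 h1 h2 h3 hm
  · have hc : cong !![1, 0, 0; 0, 0, 1; 0, 1, 0] (m3 a b c x y z) = m3 a c b y x z := by
      ext i j
      rw [cong_entries]
      fin_cases i <;> fin_cases j <;> simp [m3]
    obtain ⟨g1, g2, g3⟩ := cong_m3 _ hc (Or.inr (by decide)) hA hm
    rw [← g3]
    exact base3_core hm0 g1 hy hx hz k1 k2 (by linarith) (by linarith) (by linarith) g2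
  · have hc : cong !![0, 1, 0; 1, 0, 0; 0, 0, 1] (m3 a b c x y z) = m3 b a c x z y := by
      ext i j
      rw [cong_entries]
      fin_cases i <;> fin_cases j <;> simp [m3]
    obtain ⟨g1, g2, g3⟩ := cong_m3 _ hc (Or.inr (by decide)) hA hm
    rw [← g3]
    exact base3_core hm0 g1 hx hz hy k1 k2 (by linarith) (by linarith) (by linarith) g2

theorem flip0 (a b c x y z : ℝ) : cong !![-1, 0, 0; 0, 1, 0; 0, 0, 1] (m3 a b c x y z) =
    m3 a b c (-x) (-y) z := by
  ext i j
  rw [cong_entries]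
  fin_cases i <;> fin_cases j <;> simp [m3]

theorem flip1 (a b c x y z : ℝ) : cong !![1, 0, 0; 0, -1, 0; 0, 0, 1] (m3 a b c x y z) =
    m3 a b c (-x) y (-z) := by
  ext i j
  rw [cong_entries]
  fin_cases i <;> fin_cases j <;> simp [m3]

theorem flip2 (a b c x y z : ℝ) : cong !![1, 0, 0; 0, 1, 0; 0, 0, -1] (m3 a b c x y z) =
    m3 a b c x (-y) (-z) := by
  ext i j
  rw [cong_entries]
  fin_cases i <;> fin_cases j <;> simp [m3]

theorem base3_m3 {m : ℝ} (hm0 : 0 < m) {a b c x y z : ℝ} (hA : (m3 a b c x y z).PosDef)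
    (h1 : |x| + |y| ≤ a) (h2 : |x| + |z| ≤ b) (h3 : |y| + |z| ≤ c)
    (hm : MinGe (m3 a b c x y z) m) : 4 * (m / 2) ^ 3 ≤ (m3 a b c x y z).det := by
  obtain ⟨p1, p2, p3⟩ := cong_m3 _ (flip0 a b c x y z) (Or.inr (by decide)) hA hm
  obtain ⟨q1, q2, q3⟩ := cong_m3 _ (flip1 a b c x y z) (Or.inr (by decide)) hA hm
  obtain ⟨r1, r2, r3⟩ := cong_m3 _ (flip2 a b c x y z) (Or.inr (by decide)) hA hm
  rcases le_total 0 x with hx | hx <;> rcases le_total 0 y with hy | hy <;>
    rcases le_total 0 z with hz | hz <;>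
    simp only [abs_of_nonneg, abs_of_nonpos, hx, hy, hz] at h1 h2 h3
  · exact base3_nonneg hm0 hA hx hy hz h1 h2 h3 hm
  · rw [← p3]
    exact base3_nonpos hm0 p1 (by linarith) (by linarith) hz (by linarith) (by linarith)
      (by linarith) p2
  · rw [← q3]
    exact base3_nonpos hm0 q1 (by linarith) hy (by linarith) (by linarith) (by linarith)
      (by linarith) q2
  · rw [← r3]
    exact base3_nonneg hm0 r1 hx (by linarith) (by linarith) (by linarith) (by linarith)
      (by linarith) r2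
  · rw [← r3]
    exact base3_nonpos hm0 r1 hx (by linarith) (by linarith) (by linarith) (by linarith)
      (by linarith) r2
  · rw [← q3]
    exact base3_nonneg hm0 q1 (by linarith) hy (by linarith) (by linarith) (by linarith)
      (by linarith) q2
  · rw [← p3]
    exact base3_nonneg hm0 p1 (by linarith) (by linarith) hz (by linarith) (by linarith)
      (by linarith) p2
  · exact base3_nonpos hm0 hA hx hy hz (by linarith) (by linarith) (by linarith) hm

theorem base3 {m : ℝ} (hm0 : 0 < m) {A : Matrix (Fin 3) (Fin 3) ℝ} (hA : A.PosDef) (h : DD A)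
    (hm : MinGe A m) : 4 * (m / 2) ^ 3 ≤ A.det := by
  have hs := symm_of_posDef hA
  have hA3 : A = m3 (A 0 0) (A 1 1) (A 2 2) (A 0 1) (A 0 2) (A 1 2) := by
    ext i j
    fin_cases i <;> fin_cases j <;> simp [m3]
    · exact hs.apply 0 1
    · exact hs.apply 0 2
    · exact hs.apply 1 2
  have e := h
  have h0 := h 0
  have h1 := h 1
  have h2 := h 2
  rw [Fin.sum_univ_three] at h0 h1 h2
  rw [abs_of_nonneg (h.diag_nonneg 0)] at h0
  rw [abs_of_nonneg (h.diag_nonneg 1), ← hs.apply 1 0] at h1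
  rw [abs_of_nonneg (h.diag_nonneg 2), ← hs.apply 2 0, ← hs.apply 2 1] at h2
  rw [hA3] at hA hm ⊢
  exact base3_m3 hm0 hA (by linarith) (by linarith) (by linarith) hm

theorem dd_bound {m : ℝ} (hm0 : 0 < m) (n : ℕ) : ∀ {A : Matrix (Fin (n + 3)) (Fin (n + 3)) ℝ},
    A.PosDef → DD A → MinGe A m → 4 * (m / 2) ^ (n + 3) ≤ A.det := by
  induction n with
  | zero => exact fun hA h hm => base3 hm0 hA h hm
  | succ n ih =>
    intro A hA h hm
    obtain ⟨A', hA', h', hm', hd⟩ := dd_step hA h hm0 hm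
    have h1 := mul_le_mul_of_nonneg_left (ih hA' h' hm') (by linarith : (0 : ℝ) ≤ m / 2)
    refine le_trans (le_of_eq ?_) (h1.trans hd)
    ring

end Pool.Agent.V8H47.DDom
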