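import Pool.Agent.V8H47.DDom.Lattice

/-! Dual lattices of lattices with a diagonally dominant matrix of inner products. -/

open Matrix Finset

namespace Pool.Agent.V8H47.DDom

open Pool.Agent.H160R3.Herm Pool.Agent.TH220.HG

theorem q_single {n : ℕ} (B : Matrix (Fin n) (Fin n) ℝ) (a : Fin n) :
    q B (Pi.single a 1) = B a a := by
  rw [q_eq, Finset.sum_eq_single a, Finset.sum_eq_single a]
  · simp
  · intro j _ hj
    simp [Pi.single_eq_of_ne hj]
  · simp
  · intro j _ hj
    simp [Pi.single_eq_of_ne hj]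
  · simp

theorem q_two {n : ℕ} {B : Matrix (Fin n) (Fin n) ℝ} (hB : B.IsSymm) {a b : Fin n} (hab : a ≠ b)
    (s : ℤ) : q B (Pi.single a 1 + Pi.single b s) = B a a + s * s * B b b + 2 * (s * B a b) := by
  have h1 : (fun i => ((Pi.single a (1 : ℤ) + Pi.single b s : Fin n → ℤ) i : ℝ)) =
      Pi.single a (1 : ℝ) + Pi.single b (s : ℝ) := by
    ext i
    by_cases hi : i = a
    · subst hi
      simp [Pi.single_eq_of_ne hab]
    · by_cases hi' : i = b
      · subst hi'
        simp [Pi.single_eq_of_ne hi]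
      · simp [Pi.single_eq_of_ne hi, Pi.single_eq_of_ne hi']
  unfold q
  rw [h1, add_dotProduct, single_dotProduct, single_dotProduct, Matrix.mulVec_add]
  simp only [Pi.add_apply, Matrix.mulVec_single, MulOpposite.op_one, one_smul, Matrix.col_apply,
    Pi.smul_apply, MulOpposite.smul_eq_mul_unop, MulOpposite.unop_op]
  rw [← hB.apply b a]
  ring

theorem exists_dual_short {n : ℕ} (hn : 0 < n) {A : Matrix (Fin n) (Fin n) ℝ} (hA : A.PosDef)
    (h : DD A) : ∃ x : Fin n → ℤ, x ≠ 0 ∧ q A⁻¹ x * weight A ≤ n := by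
  have hdet : A.det ≠ 0 := hA.det_pos.ne'
  have hsA := symm_of_posDef hA
  have hsB : (A⁻¹).IsSymm := symm_of_posDef hA.inv
  obtain ⟨⟨a, b⟩, hp⟩ := exists_small hn hsA hsB
    (Matrix.mul_nonsing_inv _ (isUnit_iff_ne_zero.mpr hdet)) h (sgs A)
    (fun i j hij => (isSgn_sgs A hij).2)
  by_cases hab : a = b
  · subst hab
    refine ⟨Pi.single a 1, ?_, ?_⟩
    · intro h
      have := congrFun h a
      simp at this
    · rw [q_single]
      simpa [rval] using hp
  · refine ⟨Pi.single a 1 + Pi.single b (sgs A a b), ?_, ?_⟩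
    · intro h
      have := congrFun h a
      simp [Pi.single_eq_of_ne hab] at this
    · rw [q_two hsB hab, (isSgn_sgs A hab).sq]
      simp only [rval, if_neg hab] at hp
      refine le_trans (le_of_eq ?_) hp
      ring

/-- the matrix of the dual basis -/
noncomputable def dual {n : ℕ} (M : Matrix (Fin n) (Fin n) ℝ) : Matrix (Fin n) (Fin n) ℝ :=
  (M⁻¹)ᵀ

theorem gram_dual {n : ℕ} (M : Matrix (Fin n) (Fin n) ℝ) : gram (dual M) = (gram M)⁻¹ := by
  rw [gram, dual, gram, Matrix.mul_inv_rev, Matrix.transpose_transpose,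
    Matrix.transpose_nonsing_inv]

theorem det_dual {n : ℕ} (M : Matrix (Fin n) (Fin n) ℝ) : (dual M).det = M.det⁻¹ := by
  rw [dual, Matrix.det_transpose, Matrix.det_nonsing_inv, Ring.inverse_eq_inv']

theorem amgm {n : ℕ} (hn : 0 < n) {A : Matrix (Fin n) (Fin n) ℝ} (hA : A.PosDef) :
    A.det ^ ((1 : ℝ) / n) ≤ (∑ i, A i i) / n := by
  have h1 := hA.isHermitian.det_eq_prod_eigenvalues
  have h2 := hA.isHermitian.trace_eq_sum_eigenvalues
  have h3 : ∀ i, 0 ≤ hA.isHermitian.eigenvalues i := fun i => (hA.eigenvalues_pos i).le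
  have h4 := Real.geom_mean_le_arith_mean_weighted (Finset.univ : Finset (Fin n))
    (fun _ => (1 : ℝ) / n) hA.isHermitian.eigenvalues (fun _ _ => by positivity)
    (by
      rw [Finset.sum_const, Finset.card_univ, Fintype.card_fin, nsmul_eq_mul]
      have : (n : ℝ) ≠ 0 := by exact_mod_cast hn.ne'
      field_simp) (fun i _ => h3 i)
  rw [Real.finsetProd_rpow _ _ (fun i _ => h3 i), ← Finset.mul_sum] at h4
  have e1 : A.det = ∏ i, hA.isHermitian.eigenvalues i := by
    rw [h1]; simp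
  have e2 : ∑ i, A i i = ∑ i, hA.isHermitian.eigenvalues i := by
    have : A.trace = ∑ i, A i i := rfl
    rw [← this, h2]; simp
  rw [e1, e2]
  refine h4.trans (le_of_eq ?_)
  ring

theorem dual_bound {n : ℕ} (hn : 0 < n) {M : Matrix (Fin n) (Fin n) ℝ} (hM : M.det ≠ 0)
    (h : DD (gram M)) {D : ℝ} (hD : 0 < D)
    (hT : (D * (gram M).det) ^ ((1 : ℝ) / n) ≤ 2 * weight (gram M) / n) :
    gam (dual M) ≤ 2 / D ^ ((1 : ℝ) / n) := by
  obtain ⟨x, hx, hq⟩ := exists_dual_short hn (posDef_gram hM) h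
  have hn' : (0 : ℝ) < n := by exact_mod_cast hn
  have hm := minSq_pos hn hM
  have hd : 0 < |M.det| := abs_pos.mpr hM
  have hdg : 0 < (gram M).det := (posDef_gram hM).det_pos
  have hW : 0 < weight (gram M) := by
    have h1 := weight_ge h
    have h2 := diag_sum_ge (minGe_gram M)
    have : 0 < (n : ℝ) * minSq M := by positivity
    linarith
  have h1 : minSq (dual M) ≤ n / weight (gram M) := by
    rw [le_div_iff₀ hW]
    refine le_trans (mul_le_mul_of_nonneg_right ?_ hW.le) hq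
    rw [← gram_dual, q_gram]
    exact minSq_le _ x hx
  have h2 : gam (dual M) = minSq (dual M) * (gram M).det ^ ((1 : ℝ) / n) := by
    have e1 : |(dual M).det| = |M.det|⁻¹ := by rw [det_dual, abs_inv]
    have e3 : (gram M).det ^ ((1 : ℝ) / n) = |M.det| ^ ((2 : ℝ) / n) := by
      rw [det_gram, ← sq_abs, ← Real.rpow_natCast |M.det| 2, ← Real.rpow_mul hd.le]
      congr 1
      push_cast
      ring
    rw [gam, e1, e3, Real.inv_rpow hd.le, div_inv_eq_mul]
  rw [Real.mul_rpow hD.le hdg.le] at hT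
  have h5 : 0 < D ^ ((1 : ℝ) / n) := Real.rpow_pos_of_pos hD _
  have h6 : 0 < (gram M).det ^ ((1 : ℝ) / n) := Real.rpow_pos_of_pos hdg _
  rw [h2, le_div_iff₀ h5]
  calc minSq (dual M) * (gram M).det ^ ((1 : ℝ) / n) * D ^ ((1 : ℝ) / n)
      ≤ (n / weight (gram M)) * (gram M).det ^ ((1 : ℝ) / n) * D ^ ((1 : ℝ) / n) := by
        gcongr
    _ = (n / weight (gram M)) * (D ^ ((1 : ℝ) / n) * (gram M).det ^ ((1 : ℝ) / n)) := by ring
    _ ≤ (n / weight (gram M)) * (2 * weight (gram M) / n) := by gcongr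
    _ = 2 := by field_simp

theorem Dominant.dual_bound {n : ℕ} (hn : 0 < n) {M : Matrix (Fin n) (Fin n) ℝ} (hM : M.det ≠ 0)
    (h : Dominant M) : gam (dual M) ≤ 2 := by
  have h1 := DDom.dual_bound hn hM h.dd (D := 1) one_pos (by
    rw [one_mul]
    refine (amgm hn (posDef_gram hM)).trans ?_
    have := weight_ge h.dd
    gcongr
    linarith)
  simpa using h1

/-- the matrix `1 + J` -/
theorem exists_J (n : ℕ) : ∃ S : Matrix (Fin n) (Fin n) ℝ,
    Sᵀ * S = 1 + Matrix.of (fun _ _ => 1) ∧ S.det ^ 2 = n + 1 := by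
  have h1 : (1 + Matrix.of (fun _ _ => 1) : Matrix (Fin n) (Fin n) ℝ) =
      1 + Matrix.replicateCol Unit (fun _ => (1 : ℝ)) *
        Matrix.replicateRow Unit (fun _ => (1 : ℝ)) := by
    ext i j
    simp [Matrix.mul_apply]
  set t : ℝ := √((n : ℝ) + 1) with ht
  have ht2 : t ^ 2 = n + 1 := Real.sq_sqrt (by positivity)
  have ht0 : 0 ≤ t := Real.sqrt_nonneg _
  have ht1 : t + 1 ≠ 0 := by positivity
  set S : Matrix (Fin n) (Fin n) ℝ := 1 + Matrix.of (fun _ _ => 1 / (t + 1)) with hSdef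
  have hS : 1 + Matrix.of (fun _ _ => 1) = Sᵀ * S := by
    have e1 : Sᵀ = S := by
      ext i j
      simp [hSdef, Matrix.one_apply, eq_comm]
    rw [e1, hSdef, Matrix.add_mul, Matrix.one_mul, Matrix.mul_add, Matrix.mul_one]
    ext i j
    simp only [Matrix.add_apply, Matrix.of_apply, Matrix.mul_apply, Finset.sum_const,
      Finset.card_univ, Fintype.card_fin, nsmul_eq_mul]
    have e2 : (n : ℝ) = t ^ 2 - 1 := by rw [ht2]; ring
    rw [e2]
    field_simp
    ring
  refine ⟨S, hS.symm, ?_⟩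
  have h4 : (Sᵀ * S).det = n + 1 := by
    rw [← hS, h1, Matrix.det_one_add_replicateCol_mul_replicateRow]
    simp [dotProduct]
    ring
  rw [Matrix.det_mul, Matrix.det_transpose] at h4
  rw [sq, h4]

theorem Obtuse.dual_bound {n : ℕ} (hn : 0 < n) {M : Matrix (Fin n) (Fin n) ℝ} (hM : M.det ≠ 0)
    (h : Obtuse M) : gam (dual M) ≤ 2 / (n + 1 : ℝ) ^ ((1 : ℝ) / n) := by
  apply DDom.dual_bound hn hM h.dd (D := n + 1) (by positivity)
  obtain ⟨S, hS, hSd⟩ := exists_J n
  have hSdet : S.det ≠ 0 := by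
    intro h0
    rw [h0] at hSd
    have : (0 : ℝ) < n + 1 := by positivity
    linarith [sq_nonneg (0 : ℝ)]
  have hinj : Function.Injective (Sᵀ).mulVec := by
    apply Matrix.mulVec_injective_of_isUnit
    rw [Matrix.isUnit_iff_isUnit_det, Matrix.det_transpose, isUnit_iff_ne_zero]
    exact hSdet
  have h1 := (posDef_gram hM).conjTranspose_mul_mul_same hinj
  rw [Matrix.conjTranspose_eq_transpose_of_trivial, Matrix.transpose_transpose] at h1
  have h2 := amgm hn h1
  have h3 : (S * gram M * Sᵀ).det = (n + 1) * (gram M).det := by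
    rw [Matrix.det_mul, Matrix.det_mul, Matrix.det_transpose, ← hSd]
    ring
  have h4 : ∑ i, (S * gram M * Sᵀ) i i = 2 * weight (gram M) := by
    have e1 : ∑ i, (S * gram M * Sᵀ) i i = (S * gram M * Sᵀ).trace := rfl
    rw [e1, Matrix.trace_mul_comm, ← Matrix.mul_assoc, hS, weight_off h.dd h.off, Matrix.add_mul,
      Matrix.one_mul, Matrix.trace_add]
    congr 1
    rw [Matrix.trace]
    simp only [Matrix.diag_apply, Matrix.mul_apply, Matrix.of_apply, one_mul]
    rw [Finset.sum_comm]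
  rwa [h3, h4] at h2

end Pool.Agent.V8H47.DDom
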