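import Pool.Agent.V8H47.DDom.Dual

/-! The root lattices `A_n`. -/

open Matrix Finset

namespace Pool.Agent.V8H47.DDom

open Pool.Agent.H160R3.Herm Pool.Agent.TH220.HG

/-- the squares of the lengths of the orthogonalised basis -/
noncomputable def dsq (i : ℕ) : ℝ := ((i : ℝ) + 2) / (i + 1)

theorem dsq_pos (i : ℕ) : 0 < dsq i := by unfold dsq; positivity

/-- a basis of the root lattice `A_n` -/
noncomputable def amat (n : ℕ) : Matrix (Fin n) (Fin n) ℝ :=
  Matrix.of fun i j => if i = j then √(dsq i) else if (i : ℕ) + 1 = j then -(√(dsq i))⁻¹ else 0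

theorem amat_mul (n : ℕ) (i j l : Fin n) : amat n i j * amat n i l =
    (if i = j then (if j = l then dsq j else 0) else 0)
    - (if i = j then (if (j : ℕ) + 1 = l then 1 else 0) else 0)
    - (if i = l then (if (l : ℕ) + 1 = j then 1 else 0) else 0)
    + (if (i : ℕ) + 1 = j then (if j = l then (dsq i)⁻¹ else 0) else 0) := by
  have hd := dsq_pos i
  have h1 : √(dsq i) * √(dsq i) = dsq i := Real.mul_self_sqrt hd.le
  have h2 : √(dsq i) ≠ 0 := (Real.sqrt_pos.2 hd).ne'
  simp only [amat, Matrix.of_apply]
  by_cases c1 : i = j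
  · subst c1
    by_cases c2 : i = l
    · subst c2
      simp [h1]
    · by_cases c3 : (i : ℕ) + 1 = l
      · have c4 : ¬ ((l : ℕ) + 1 = i) := by omega
        simp [c2, c3, h2]
      · simp [c2, c3]
  · by_cases c5 : (i : ℕ) + 1 = j
    · by_cases c2 : i = l
      · subst c2
        have c6 : ¬ ((j : ℕ) + 1 = i) := by omega
        have c7 : j ≠ i := Ne.symm c1
        simp [c1, c5, c7, h2]
      · by_cases c3 : (i : ℕ) + 1 = l
        · have c8 : j = l := Fin.ext (by omega)
          subst c8
          have h3 : (-(√(dsq i))⁻¹) * (-(√(dsq i))⁻¹) = (dsq i)⁻¹ := by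
            rw [neg_mul_neg, ← mul_inv, h1]
          simp only [if_neg c1, if_pos c5, h3]
          simp
        · have c8 : j ≠ l := by
            intro h; subst h; exact c3 c5
          simp [c1, c2, c3, c8]
    · by_cases c2 : i = l
      · subst c2
        simp [c1, c5]
      · simp [c1, c2, c5]

theorem gram_amat (n : ℕ) : gram (amat n) = (CartanMatrix.A n).map (Int.cast : ℤ → ℝ) := by
  ext j l
  rw [gram, Matrix.mul_apply]
  simp only [Matrix.transpose_apply]
  rw [Finset.sum_congr rfl fun i _ => amat_mul n i j l, Finset.sum_add_distrib,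
    Finset.sum_sub_distrib, Finset.sum_sub_distrib, Finset.sum_ite_eq', Finset.sum_ite_eq',
    Finset.sum_ite_eq']
  simp only [Finset.mem_univ, if_true]
  have h1 : ∑ i : Fin n, (if (i : ℕ) + 1 = j then (if j = l then (dsq i)⁻¹ else 0) else 0) =
      if j = l then 2 - dsq j else 0 := by
    by_cases c : j = l
    · simp only [if_pos c]
      rcases Nat.eq_zero_or_pos (j : ℕ) with h0 | h0
      · rw [Finset.sum_eq_zero]
        · rw [h0]; norm_num [dsq]
        · intro i _
          rw [if_neg (by omega)]
      · rw [Finset.sum_eq_single (⟨(j : ℕ) - 1, by omega⟩ : Fin n)]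
        · rw [if_pos (by simp; omega)]
          have e : (((j : ℕ) - 1 : ℕ) : ℝ) = (j : ℝ) - 1 := by
            rw [Nat.cast_sub h0]; simp
          simp only [dsq, e]
          have : (0 : ℝ) < (j : ℝ) := by exact_mod_cast h0
          have e1 : (j : ℝ) - 1 + 2 = (j : ℝ) + 1 := by ring
          rw [e1]
          field_simp
          ring
        · intro i _ hi
          rw [if_neg]
          intro h
          apply hi
          apply Fin.ext
          simp
          omega
        · simp
    · simp [c]
  rw [h1]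
  simp only [Matrix.map_apply, CartanMatrix.A, Matrix.of_apply]
  by_cases c : j = l
  · subst c
    simp
  · have c' : ¬ (j : ℕ) = l := fun h => c (Fin.ext h)
    by_cases c1 : (j : ℕ) + 1 = l
    · have c2 : ¬ ((l : ℕ) + 1 = j) := by omega
      simp [c, c1, c2]
    · by_cases c2 : (l : ℕ) + 1 = j
      · simp [c, c1, c2]
      · simp [c, c1, c2]

theorem sum_ind_le {n : ℕ} (c : ℕ) : ∑ j : Fin n, (if (j : ℕ) = c then (1 : ℤ) else 0) ≤ 1 := by
  by_cases h : c < n
  · rw [Finset.sum_eq_single (⟨c, h⟩ : Fin n)]
    · simp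
    · intro b _ hb
      rw [if_neg]
      intro h'
      exact hb (Fin.ext h')
    · simp
  · rw [Finset.sum_eq_zero]
    · norm_num
    · intro i _
      rw [if_neg (by omega)]

theorem cartan_row (n : ℕ) (i : Fin n) : 0 ≤ ∑ j, CartanMatrix.A n i j := by
  have h1 : ∀ j, CartanMatrix.A n i j = (if i = j then 2 else 0) -
      (if (j : ℕ) = (i : ℕ) + 1 then 1 else 0) -
      (if 0 < (i : ℕ) then (if (j : ℕ) = (i : ℕ) - 1 then 1 else 0) else 0) := by
    intro j
    simp only [CartanMatrix.A, Matrix.of_apply]
    by_cases c : i = j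
    · subst c
      rw [if_pos rfl, if_pos rfl, if_neg (by omega)]
      by_cases c0 : 0 < (i : ℕ)
      · rw [if_pos c0, if_neg (by omega)]; ring
      · rw [if_neg c0]; ring
    · have c' : ¬ (i : ℕ) = j := fun h => c (Fin.ext h)
      rw [if_neg c, if_neg c]
      by_cases c1 : (i : ℕ) + 1 = j
      · rw [if_pos (Or.inl c1), if_pos (by omega)]
        by_cases c0 : 0 < (i : ℕ)
        · rw [if_pos c0, if_neg (by omega)]; ring
        · rw [if_neg c0]; ring
      · by_cases c2 : (j : ℕ) + 1 = i
        · rw [if_pos (Or.inr c2), if_neg (by omega), if_pos (by omega), if_pos (by omega)]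
          ring
        · rw [if_neg (by tauto), if_neg (by omega)]
          by_cases c0 : 0 < (i : ℕ)
          · rw [if_pos c0, if_neg (by omega)]; ring
          · rw [if_neg c0]; ring
  rw [Finset.sum_congr rfl fun j _ => h1 j, Finset.sum_sub_distrib, Finset.sum_sub_distrib,
    Finset.sum_ite_eq]
  simp only [Finset.mem_univ, if_true]
  have h2 := sum_ind_le (n := n) ((i : ℕ) + 1)
  have h3 := sum_ind_le (n := n) ((i : ℕ) - 1)
  split_ifs with h
  · linarith
  · simp only [Finset.sum_const_zero]
    linarith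

theorem obtuse_amat (n : ℕ) : Obtuse (amat n) := by
  constructor
  · intro i j hij
    rw [gram_amat, Matrix.map_apply]
    exact_mod_cast CartanMatrix.A_apply_le_zero_of_ne n i j hij
  · intro i
    rw [gram_amat]
    simp only [Matrix.map_apply]
    exact_mod_cast cartan_row n i

theorem det_amat_sq (n : ℕ) : (amat n).det ^ 2 = n + 1 := by
  have htri : (amat n).BlockTriangular id := by
    intro i j hij
    simp only [id] at hij
    have h1 : i ≠ j := hij.ne'
    have h2 : ¬ ((i : ℕ) + 1 = j) := by
      have : (j : ℕ) < i := hij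
      omega
    simp [amat, h1, h2]
  rw [Matrix.det_of_isUpperTriangular htri, ← Finset.prod_pow]
  have h1 : ∀ i : Fin n, amat n i i ^ 2 = dsq i := by
    intro i
    simp only [amat, Matrix.of_apply, if_true]
    exact Real.sq_sqrt (dsq_pos i).le
  rw [Finset.prod_congr rfl fun i _ => h1 i, Fin.prod_univ_eq_prod_range dsq n]
  induction n with
  | zero => simp
  | succ n ih =>
    rw [Finset.prod_range_succ]
    have htri' : (amat n).BlockTriangular id := by
      intro i j hij
      simp only [id] at hij
      have h1 : i ≠ j := hij.ne'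
      have h2 : ¬ ((i : ℕ) + 1 = j) := by
        have : (j : ℕ) < i := hij
        omega
      simp [amat, h1, h2]
    have h1' : ∀ i : Fin n, amat n i i ^ 2 = dsq i := by
      intro i
      simp only [amat, Matrix.of_apply, if_true]
      exact Real.sq_sqrt (dsq_pos i).le
    rw [ih htri' h1', dsq]
    push_cast
    field_simp
    ring

theorem even_form {n : ℕ} (C : Matrix (Fin n) (Fin n) ℤ) (hs : C.IsSymm)
    (hd : ∀ i, Even (C i i)) (w : Fin n → ℤ) : Even (∑ i, ∑ j, C i j * (w i * w j)) := by
  rw [even_iff_two_dvd]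
  have h2 : ((2 : ℕ) : ℤ) ∣ ∑ i, ∑ j, C i j * (w i * w j) := by
    rw [← ZMod.intCast_zmod_eq_zero_iff_dvd]
    push_cast
    rw [← Finset.sum_product']
    refine Finset.sum_involution (fun p _ => (p.2, p.1)) ?_ ?_ ?_ ?_
    · intro p _
      have h1 : C p.2 p.1 = C p.1 p.2 := hs.apply p.1 p.2
      simp only [h1]
      rw [mul_comm ((w p.2 : ℤ) : ZMod 2) (w p.1 : ZMod 2)]
      exact CharTwo.add_self_eq_zero _
    · intro p _ hp h
      apply hp
      have h1 : p.2 = p.1 := congrArg Prod.fst h
      rw [h1]
      obtain ⟨t, ht⟩ := hd p.1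
      rw [ht]
      push_cast
      rw [CharTwo.add_self_eq_zero, zero_mul]
    · intro p _
      simp
    · intro p _
      rfl
  exact_mod_cast h2

theorem two_le_nsq_amat {n : ℕ} {w : Fin n → ℤ} (hw : w ≠ 0) : 2 ≤ nsq (amat n) w := by
  have hdet : (amat n).det ≠ 0 := by
    intro h
    have h1 := det_amat_sq n
    rw [h] at h1
    have : (0 : ℝ) < n + 1 := by positivity
    linarith [sq_nonneg (0 : ℝ)]
  have h1 := nsq_pos hdet hw
  have h2 : nsq (amat n) w = ((∑ i, ∑ j, CartanMatrix.A n i j * (w i * w j) : ℤ) : ℝ) := by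
    rw [← q_gram, q_eq, gram_amat]
    push_cast
    rfl
  obtain ⟨t, ht⟩ := even_form (CartanMatrix.A n) (CartanMatrix.A_isSymm n)
    (fun i => ⟨1, by simp [CartanMatrix.A]⟩) w
  rw [h2, ht] at h1 ⊢
  have h3 : (0 : ℤ) < t + t := by exact_mod_cast h1
  have : (2 : ℤ) ≤ t + t := by omega
  exact_mod_cast this

theorem gam_amat {n : ℕ} (hn : 0 < n) : gam (amat n) = 2 / (n + 1 : ℝ) ^ ((1 : ℝ) / n) := by
  have hdet : (amat n).det ≠ 0 := by
    intro h
    have h1 := det_amat_sq n
    rw [h] at h1
    have : (0 : ℝ) < n + 1 := by positivity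
    linarith [sq_nonneg (0 : ℝ)]
  apply le_antisymm
  · exact (obtuse_amat n).bound hn hdet
  · have h0 : 0 < |(amat n).det| := abs_pos.mpr hdet
    have h1 : |(amat n).det| ^ ((2 : ℝ) / n) = (n + 1 : ℝ) ^ ((1 : ℝ) / n) := by
      rw [← det_amat_sq n, ← sq_abs, ← Real.rpow_natCast |(amat n).det| 2,
        ← Real.rpow_mul h0.le]
      congr 1
      push_cast
      ring
    rw [gam, h1]
    exact div_le_div_of_nonneg_right (le_minSq hn fun w hw => two_le_nsq_amat hw)
      (Real.rpow_nonneg (by positivity) _)

/-! ### The dual of the lattice with the superbase with equal inner products -/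

theorem exists_dual_eq {n : ℕ} (hn : 0 < n) : ∃ M : Matrix (Fin n) (Fin n) ℝ, M.det ≠ 0 ∧
    Obtuse M ∧ gam (dual M) = 2 / (n + 1 : ℝ) ^ ((1 : ℝ) / n) := by
  obtain ⟨S, hS, hSd⟩ := exists_J n
  have hSdet : S.det ≠ 0 := by
    intro h0
    rw [h0] at hSd
    have : (0 : ℝ) < n + 1 := by positivity
    linarith [sq_nonneg (0 : ℝ)]
  have hSu : IsUnit S.det := isUnit_iff_ne_zero.mpr hSdet
  have hn1 : (0 : ℝ) < n + 1 := by positivity
  have hgS : gram S = 1 + Matrix.of (fun _ _ => 1) := hS
  have hinv : (gram S)⁻¹ = 1 - Matrix.of (fun _ _ => 1 / ((n : ℝ) + 1)) := by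
    apply Matrix.inv_eq_left_inv
    rw [hgS, Matrix.sub_mul, Matrix.one_mul, Matrix.mul_add, Matrix.mul_one]
    ext i j
    simp only [Matrix.add_apply, Matrix.sub_apply, Matrix.of_apply, Matrix.mul_apply,
      Finset.sum_const, Finset.card_univ, Fintype.card_fin, nsmul_eq_mul]
    field_simp
    ring
  have hdd : dual (dual S) = S := by
    rw [dual, dual, ← Matrix.transpose_nonsing_inv, Matrix.transpose_transpose,
      Matrix.nonsing_inv_nonsing_inv _ hSu]
  refine ⟨dual S, ?_, ?_, ?_⟩
  · rw [det_dual]
    exact inv_ne_zero hSdet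
  · have hg : gram (dual S) = 1 - Matrix.of (fun _ _ => 1 / ((n : ℝ) + 1)) := by
      rw [gram_dual, hinv]
    constructor
    · intro i j hij
      rw [hg]
      simp only [Matrix.sub_apply, Matrix.of_apply, Matrix.one_apply_ne hij]
      have : 0 ≤ 1 / ((n : ℝ) + 1) := by positivity
      linarith
    · intro i
      rw [hg]
      simp only [Matrix.sub_apply, Matrix.of_apply, Finset.sum_sub_distrib, Matrix.one_apply,
        Finset.sum_ite_eq, Finset.mem_univ, if_true, Finset.sum_const, Finset.card_univ,
        Fintype.card_fin, nsmul_eq_mul]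
      have : (n : ℝ) * (1 / (n + 1)) ≤ 1 := by
        rw [mul_one_div, div_le_one hn1]
        linarith
      linarith
  · rw [hdd]
    have h0 : 0 < |S.det| := abs_pos.mpr hSdet
    have h1 : |S.det| ^ ((2 : ℝ) / n) = (n + 1 : ℝ) ^ ((1 : ℝ) / n) := by
      rw [← hSd, ← sq_abs, ← Real.rpow_natCast |S.det| 2, ← Real.rpow_mul h0.le]
      congr 1
      push_cast
      ring
    have hOS : Obtuse (dual S) := by
      have hg : gram (dual S) = 1 - Matrix.of (fun _ _ => 1 / ((n : ℝ) + 1)) := by
        rw [gram_dual, hinv]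
      constructor
      · intro i j hij
        rw [hg]
        simp only [Matrix.sub_apply, Matrix.of_apply, Matrix.one_apply_ne hij]
        have : 0 ≤ 1 / ((n : ℝ) + 1) := by positivity
        linarith
      · intro i
        rw [hg]
        simp only [Matrix.sub_apply, Matrix.of_apply, Finset.sum_sub_distrib, Matrix.one_apply,
          Finset.sum_ite_eq, Finset.mem_univ, if_true, Finset.sum_const, Finset.card_univ,
          Fintype.card_fin, nsmul_eq_mul]
        have : (n : ℝ) * (1 / (n + 1)) ≤ 1 := by
          rw [mul_one_div, div_le_one hn1]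
          linarith
        linarith
    apply le_antisymm
    · have := hOS.dual_bound hn (by rw [det_dual]; exact inv_ne_zero hSdet)
      rwa [hdd] at this
    · rw [gam, h1]
      refine div_le_div_of_nonneg_right (le_minSq hn fun w hw => ?_)
        (Real.rpow_nonneg (by positivity) _)
      have h2 := nsq_pos hSdet hw
      let C : Matrix (Fin n) (Fin n) ℤ := 1 + Matrix.of (fun _ _ => 1)
      have h3 : nsq S w = ((∑ i, ∑ j, C i j * (w i * w j) : ℤ) : ℝ) := by
        rw [← q_gram, q_eq, hgS]
        push_cast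
        apply Finset.sum_congr rfl
        intro i _
        apply Finset.sum_congr rfl
        intro j _
        congr 1
        by_cases hij : i = j
        · simp [C, hij]
          norm_num
        · simp [C, Matrix.one_apply_ne hij]
      have hCs : C.IsSymm := by
        ext i j
        simp [C, Matrix.one_apply, eq_comm]
      obtain ⟨t, ht⟩ := even_form C hCs (fun i => ⟨1, by simp [C]⟩) w
      rw [h3, ht] at h2 ⊢
      have h4 : (0 : ℤ) < t + t := by exact_mod_cast h2
      have : (2 : ℤ) ≤ t + t := by omega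
      exact_mod_cast this

end Pool.Agent.V8H47.DDom
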