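import Pool.Agent.V8H47.DDom.Bound
import Pool.Agent.TH220.HG.Sub

/-! Hermite invariants of lattices with a diagonally dominant matrix of inner products. -/

open Matrix Finset

namespace Pool.Agent.V8H47.DDom

open Pool.Agent.H160R3.Herm Pool.Agent.TH220.HG

/-- the matrix of the inner products of the columns of `M` -/
def gram {n : ℕ} (M : Matrix (Fin n) (Fin n) ℝ) : Matrix (Fin n) (Fin n) ℝ :=
  Mᵀ * M

theorem q_gram {n : ℕ} (M : Matrix (Fin n) (Fin n) ℝ) (x : Fin n → ℤ) :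
    q (gram M) x = nsq M x := by
  unfold q gram nsq
  rw [← Matrix.mulVec_mulVec, Matrix.mulVec_transpose, dotProduct_comm, ← Matrix.dotProduct_mulVec]
  unfold dotProduct
  apply Finset.sum_congr rfl
  intro i _
  ring

theorem posDef_gram {n : ℕ} {M : Matrix (Fin n) (Fin n) ℝ} (hM : M.det ≠ 0) :
    (gram M).PosDef := by
  have hinj : Function.Injective M.mulVec := by
    apply Matrix.mulVec_injective_of_isUnit
    rw [Matrix.isUnit_iff_isUnit_det, isUnit_iff_ne_zero]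
    exact hM
  have := (Matrix.PosDef.one (n := Fin n) (R := ℝ)).conjTranspose_mul_mul_same hinj
  rw [Matrix.conjTranspose_eq_transpose_of_trivial, Matrix.mul_one] at this
  exact this

theorem det_gram {n : ℕ} (M : Matrix (Fin n) (Fin n) ℝ) : (gram M).det = M.det ^ 2 := by
  rw [gram, Matrix.det_mul, Matrix.det_transpose]
  ring

theorem minGe_gram {n : ℕ} (M : Matrix (Fin n) (Fin n) ℝ) : MinGe (gram M) (minSq M) := by
  intro x hx
  rw [q_gram]
  exact minSq_le M x hx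

theorem gam_le_of {n : ℕ} (hn : 0 < n) {M : Matrix (Fin n) (Fin n) ℝ} (hM : M.det ≠ 0) {C : ℝ}
    (hC : 0 < C) (h : C * (minSq M / 2) ^ n ≤ M.det ^ 2) : gam M ≤ 2 / C ^ ((1 : ℝ) / n) := by
  have hm := minSq_pos hn hM
  have hn' : (n : ℝ) ≠ 0 := by exact_mod_cast hn.ne'
  have hd : 0 < |M.det| := abs_pos.mpr hM
  have h1 : (C * (minSq M / 2) ^ n) ^ ((1 : ℝ) / n) ≤ (M.det ^ 2) ^ ((1 : ℝ) / n) :=
    Real.rpow_le_rpow (by positivity) h (by positivity)
  have h2 : (C * (minSq M / 2) ^ n) ^ ((1 : ℝ) / n) = C ^ ((1 : ℝ) / n) * (minSq M / 2) := by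
    rw [Real.mul_rpow hC.le (by positivity), ← Real.rpow_natCast (minSq M / 2) n,
      ← Real.rpow_mul (by positivity)]
    rw [mul_one_div_cancel hn', Real.rpow_one]
  have h3 : (M.det ^ 2) ^ ((1 : ℝ) / n) = |M.det| ^ ((2 : ℝ) / n) := by
    rw [← sq_abs, ← Real.rpow_natCast |M.det| 2, ← Real.rpow_mul hd.le]
    congr 1
    push_cast
    ring
  rw [h2, h3] at h1
  have h4 : 0 < |M.det| ^ ((2 : ℝ) / n) := Real.rpow_pos_of_pos hd _
  have h5 : 0 < C ^ ((1 : ℝ) / n) := Real.rpow_pos_of_pos hC _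
  rw [gam, div_le_div_iff₀ h4 h5]
  linarith

/-- the basis `M` has nonpositive inner products, and the inner products of its vectors with minus
their sum are nonpositive, too -/
def Obtuse {n : ℕ} (M : Matrix (Fin n) (Fin n) ℝ) : Prop :=
  (∀ i j, i ≠ j → gram M i j ≤ 0) ∧ ∀ i, 0 ≤ ∑ j, gram M i j

/-- the squared length of each vector of the basis `M` is at least the sum of the absolute values of
its inner products with the other vectors of the basis -/
def Dominant {n : ℕ} (M : Matrix (Fin n) (Fin n) ℝ) : Prop :=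
  ∀ i, ∑ j ∈ Finset.univ.erase i, |gram M i j| ≤ gram M i i

theorem gram_diag_nonneg {n : ℕ} (M : Matrix (Fin n) (Fin n) ℝ) (i : Fin n) :
    0 ≤ gram M i i := by
  rw [gram, Matrix.mul_apply]
  apply Finset.sum_nonneg
  intro j _
  rw [Matrix.transpose_apply]
  exact mul_self_nonneg _

theorem Dominant.dd {n : ℕ} {M : Matrix (Fin n) (Fin n) ℝ} (h : Dominant M) : DD (gram M) := by
  intro i
  rw [← Finset.add_sum_erase _ _ (Finset.mem_univ i), abs_of_nonneg (gram_diag_nonneg M i)]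
  linarith [h i]

theorem Obtuse.off {n : ℕ} {M : Matrix (Fin n) (Fin n) ℝ} (h : Obtuse M) :
    OffNonpos (gram M) := h.1

theorem Obtuse.dd {n : ℕ} {M : Matrix (Fin n) (Fin n) ℝ} (h : Obtuse M) : DD (gram M) :=
  dd_of_rows h.1 h.2

theorem Obtuse.bound {n : ℕ} (hn : 0 < n) {M : Matrix (Fin n) (Fin n) ℝ} (hM : M.det ≠ 0)
    (h : Obtuse M) : gam M ≤ 2 / (n + 1 : ℝ) ^ ((1 : ℝ) / n) := by
  apply gam_le_of hn hM (by positivity)
  rw [← det_gram]
  exact off_bound (minSq_pos hn hM) n (posDef_gram hM) h.dd h.off (minGe_gram M)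

theorem Dominant.bound {n : ℕ} (hn : 3 ≤ n) {M : Matrix (Fin n) (Fin n) ℝ} (hM : M.det ≠ 0)
    (h : Dominant M) : gam M ≤ 2 / (4 : ℝ) ^ ((1 : ℝ) / n) := by
  apply gam_le_of (by omega) hM (by positivity)
  rw [← det_gram]
  obtain ⟨k, rfl⟩ : ∃ k, n = k + 3 := ⟨n - 3, by omega⟩
  exact dd_bound (minSq_pos (by omega) hM) k (posDef_gram hM) h.dd (minGe_gram M)

/-! ### Sublattices -/

theorem le_minSq {n : ℕ} (hn : 0 < n) {M : Matrix (Fin n) (Fin n) ℝ} {c : ℝ}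
    (h : ∀ w : Fin n → ℤ, w ≠ 0 → c ≤ nsq M w) : c ≤ minSq M := by
  haveI : Nonempty {w : Fin n → ℤ // w ≠ 0} := ⟨⟨Pi.single ⟨0, hn⟩ 1, by
    intro h
    have := congrFun h ⟨0, hn⟩
    simp at this⟩⟩
  exact le_ciInf fun w => h w.1 w.2

theorem nsq_mul {n : ℕ} (M : Matrix (Fin n) (Fin n) ℝ) (K : Matrix (Fin n) (Fin n) ℤ)
    (w : Fin n → ℤ) : nsq (M * K.map (Int.cast : ℤ → ℝ)) w = nsq M (K *ᵥ w) := by
  unfold nsq
  rw [← Matrix.mulVec_mulVec, cast_mulVec]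

theorem gam_sub {n : ℕ} (hn : 0 < n) {M : Matrix (Fin n) (Fin n) ℝ} (hM : M.det ≠ 0)
    {K : Matrix (Fin n) (Fin n) ℤ} (hK : K.det ≠ 0) :
    gam M ≤ (|K.det| : ℝ) ^ ((2 : ℝ) / n) * gam (M * K.map (Int.cast : ℤ → ℝ)) := by
  have h1 : minSq M ≤ minSq (M * K.map (Int.cast : ℤ → ℝ)) := by
    apply le_minSq hn
    intro w hw
    rw [nsq_mul]
    apply minSq_le
    intro h
    exact hw (Matrix.eq_zero_of_mulVec_eq_zero hK h)
  have hK' : (0 : ℝ) < |(K.det : ℝ)| := by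
    rw [abs_pos]; exact_mod_cast hK
  have hd : 0 < |M.det| := abs_pos.mpr hM
  unfold gam
  rw [Matrix.det_mul, det_map_cast, abs_mul, Real.mul_rpow hd.le hK'.le]
  have e1 : 0 < |M.det| ^ ((2 : ℝ) / n) := Real.rpow_pos_of_pos hd _
  have e2 : 0 < |(K.det : ℝ)| ^ ((2 : ℝ) / n) := Real.rpow_pos_of_pos hK' _
  rw [mul_div_assoc', div_le_div_iff₀ e1 (by positivity)]
  calc minSq M * (|M.det| ^ ((2 : ℝ) / n) * |(K.det : ℝ)| ^ ((2 : ℝ) / n))
      ≤ minSq (M * K.map (Int.cast : ℤ → ℝ)) *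
        (|M.det| ^ ((2 : ℝ) / n) * |(K.det : ℝ)| ^ ((2 : ℝ) / n)) :=
        mul_le_mul_of_nonneg_right h1 (by positivity)
    _ = _ := by ring

end Pool.Agent.V8H47.DDom
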