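import Pool.Agent.V8H47.DDom.Step

/-! Merging two rows of a diagonally dominant matrix. -/

open Matrix Finset

namespace Pool.Agent.V8H47.DDom

/-- `s` is the sign of `A i j` (arbitrary if `A i j = 0`) -/
def IsSgn {n : ℕ} (A : Matrix (Fin n) (Fin n) ℝ) (i j : Fin n) (s : ℤ) : Prop :=
  (s = 1 ∨ s = -1) ∧ A i j = s * |A i j|

theorem IsSgn.sq {n : ℕ} {A : Matrix (Fin n) (Fin n) ℝ} {i j : Fin n} {s : ℤ}
    (h : IsSgn A i j s) : (s : ℝ) * s = 1 := by
  rcases h.1 with h | h <;> simp [h]

theorem IsSgn.abs {n : ℕ} {A : Matrix (Fin n) (Fin n) ℝ} {i j : Fin n} {s : ℤ}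
    (h : IsSgn A i j s) : |(s : ℝ)| = 1 := by
  rcases h.1 with h | h <;> simp [h]

theorem dd_merge {n : ℕ} {A : Matrix (Fin (n + 1)) (Fin (n + 1)) ℝ} (hs : A.IsSymm) (h : DD A)
    (i : Fin (n + 1)) (j' : Fin n) {s : ℤ} (hsg : IsSgn A i (i.succAbove j') s) :
    DD (del (sh A i (i.succAbove j') s) i) := by
  set j := i.succAbove j' with hj
  have hij : i ≠ j := (Fin.succAbove_ne i j').symm
  have hsym : ∀ a b, A a b = A b a := fun a b => (hs.apply a b).symm
  have habs := hsg.abs
  intro k
  simp only [del, Matrix.submatrix_apply]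
  by_cases hk : k = j'
  · subst hk
    rw [← hj]
    have e1 : sh A i j s j j = A j j + A i i - 2 * |A i j| := by
      rw [sh_apply_same, hsym j i]
      have h1 := hsg.2
      have h2 := hsg.sq
      have h3 : (s : ℝ) * A i j = |A i j| := by
        calc (s : ℝ) * A i j = s * (s * |A i j|) := by rw [← h1]
          _ = (s * s) * |A i j| := by ring
          _ = |A i j| := by rw [h2, one_mul]
      linear_combination (-2 : ℝ) * h3 + A i i * h2
    have p1 := h.off_le hij
    have p2 := h.off_le hij.symm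
    rw [hsym j i] at p2
    have h1 : ∀ l : Fin n, |sh A i j s j (i.succAbove l)| ≤
        |A j (i.succAbove l)| + |A i (i.succAbove l)| +
          (if l = k then |sh A i j s j j| - |A j j| - |A i j| else 0) := by
      intro l
      split_ifs with hl
      · subst hl
        rw [← hj]
        linarith
      · have hl' : i.succAbove l ≠ j := fun h => hl (Fin.succAbove_right_injective h)
        rw [sh_apply_left A s hl', add_zero]
        refine (abs_sub _ _).trans ?_
        rw [abs_mul, habs, one_mul]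
    have h2 := Finset.sum_le_sum fun l (_ : l ∈ (Finset.univ : Finset (Fin n))) => h1 l
    rw [Finset.sum_add_distrib, Finset.sum_add_distrib, Finset.sum_ite_eq'] at h2
    simp only [Finset.mem_univ, if_true] at h2
    have h3 := h i
    have h4 := h j
    rw [Fin.sum_univ_succAbove _ i] at h3 h4
    rw [abs_of_nonneg (h.diag_nonneg i)] at h3
    rw [hsym j i] at h4
    have h5 : |sh A i j s j j| = sh A i j s j j := by
      apply abs_of_nonneg
      rw [e1]
      linarith
    rw [h5, e1] at h2
    rw [abs_of_nonneg (h.diag_nonneg j)] at h2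
    rw [e1]
    linarith
  · have hk' : i.succAbove k ≠ j := fun h => hk (Fin.succAbove_right_injective h)
    have h1 : ∀ l : Fin n, |sh A i j s (i.succAbove k) (i.succAbove l)| ≤
        |A (i.succAbove k) (i.succAbove l)| + (if l = j' then |A (i.succAbove k) i| else 0) := by
      intro l
      split_ifs with hl
      · subst hl
        rw [← hj, sh_apply_right A s hk']
        refine (abs_sub _ _).trans ?_
        rw [abs_mul, habs, one_mul]
      · have hl' : i.succAbove l ≠ j := fun h => hl (Fin.succAbove_right_injective h)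
        rw [sh_apply A s hk' hl', add_zero]
    have h2 := Finset.sum_le_sum fun l (_ : l ∈ (Finset.univ : Finset (Fin n))) => h1 l
    rw [Finset.sum_add_distrib, Finset.sum_ite_eq'] at h2
    simp only [Finset.mem_univ, if_true] at h2
    have h3 := h (i.succAbove k)
    rw [Fin.sum_univ_succAbove _ i] at h3
    rw [sh_apply A s hk' hk']
    linarith

theorem off_merge {n : ℕ} {A : Matrix (Fin (n + 1)) (Fin (n + 1)) ℝ} (h : OffNonpos A)
    (i : Fin (n + 1)) (j' : Fin n) :
    OffNonpos (del (sh A i (i.succAbove j') (-1)) i) := by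
  set j := i.succAbove j' with hj
  intro k l hkl
  simp only [del, Matrix.submatrix_apply]
  by_cases hk : k = j'
  · have hl : l ≠ j' := fun h => hkl (hk.trans h.symm)
    subst hk
    have hl' : i.succAbove l ≠ j := fun h => hl (Fin.succAbove_right_injective h)
    rw [← hj, sh_apply_left A _ hl']
    have h1 := h j (i.succAbove l) hl'.symm
    have h2 := h i (i.succAbove l) (Fin.succAbove_ne i l).symm
    push_cast
    linarith
  · have hk' : i.succAbove k ≠ j := fun h => hk (Fin.succAbove_right_injective h)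
    by_cases hl : l = j'
    · subst hl
      rw [← hj, sh_apply_right A _ hk']
      have h1 := h (i.succAbove k) j hk'
      have h2 := h (i.succAbove k) i (Fin.succAbove_ne i k)
      push_cast
      linarith
    · have hl' : i.succAbove l ≠ j := fun h => hl (Fin.succAbove_right_injective h)
      rw [sh_apply A _ hk' hl']
      exact h _ _ fun h1 => hkl (Fin.succAbove_right_injective h1)

/-! ### The weights -/

/-- the sum of the weights of the forms `x_i ^ 2`, `(x_i - s x_j) ^ 2` in the form with the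
diagonally dominant matrix `A` -/
noncomputable def weight {n : ℕ} (A : Matrix (Fin n) (Fin n) ℝ) : ℝ :=
  ∑ i, (2 * A i i - ∑ j, |A i j|) + (∑ i, ∑ j, |A i j| - ∑ i, A i i) / 2

theorem weight_ge {n : ℕ} {A : Matrix (Fin n) (Fin n) ℝ} (h : DD A) :
    (∑ i, A i i) / 2 ≤ weight A := by
  have h1 : ∑ i, ∑ j, |A i j| ≤ ∑ i, 2 * A i i := Finset.sum_le_sum fun i _ => h i
  unfold weight
  rw [Finset.sum_sub_distrib]
  rw [← Finset.mul_sum] at h1 ⊢
  linarith

theorem abs_off {n : ℕ} {A : Matrix (Fin n) (Fin n) ℝ} (h : DD A) (ho : OffNonpos A) (i : Fin n) :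
    ∑ j, |A i j| = 2 * A i i - ∑ j, A i j := by
  have h1 : ∀ j, |A i j| + A i j = if j = i then 2 * A i i else 0 := by
    intro j
    split_ifs with hj
    · subst hj
      rw [abs_of_nonneg (h.diag_nonneg j)]; ring
    · rw [abs_of_nonpos (ho i j (Ne.symm hj))]; ring
  have h2 := Finset.sum_congr rfl fun j (_ : j ∈ (Finset.univ : Finset (Fin n))) => h1 j
  rw [Finset.sum_add_distrib, Finset.sum_ite_eq'] at h2
  simp only [Finset.mem_univ, if_true] at h2
  linarith

theorem weight_off {n : ℕ} {A : Matrix (Fin n) (Fin n) ℝ} (h : DD A) (ho : OffNonpos A) :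
    2 * weight A = ∑ i, A i i + ∑ i, ∑ j, A i j := by
  have h1 : ∑ i, ∑ j, |A i j| = ∑ i, (2 * A i i - ∑ j, A i j) :=
    Finset.sum_congr rfl fun i _ => abs_off h ho i
  unfold weight
  rw [Finset.sum_sub_distrib, h1, Finset.sum_sub_distrib, ← Finset.mul_sum]
  ring

/-- the value at the vector `e_i` or `e_i + s e_j` of the form with the matrix `B` -/
noncomputable def rval {n : ℕ} (B : Matrix (Fin n) (Fin n) ℝ) (s : Fin n → Fin n → ℤ)
    (p : Fin n × Fin n) : ℝ :=
  if p.1 = p.2 then B p.1 p.1
  else B p.1 p.1 + B p.2 p.2 + 2 * (s p.1 p.2 * B p.1 p.2)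

theorem trace_id {n : ℕ} {A B : Matrix (Fin n) (Fin n) ℝ} (hA : A.IsSymm) (hB : B.IsSymm) (hAB : A * B = 1)
    (h : DD A) (s : Fin n → Fin n → ℤ) (hs : ∀ i j, i ≠ j → A i j = s i j * |A i j|) :
    ∑ i, (2 * A i i - ∑ j, |A i j|) * B i i +
      ∑ i, ∑ j, (if i = j then 0 else |A i j| / 2) * rval B s (i, j) = n := by
  have hsymB : ∀ a b, B a b = B b a := fun a b => (hB.apply a b).symm
  have h1 : ∑ i, ∑ j, A i j * B i j = n := by
    have h2 : Matrix.trace (A * B) = n := by
      rw [hAB, Matrix.trace_one, Fintype.card_fin]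
    rw [← h2, Matrix.trace]
    apply Finset.sum_congr rfl
    intro i _
    rw [Matrix.diag_apply, Matrix.mul_apply]
    apply Finset.sum_congr rfl
    intro j _
    rw [hsymB]
  have h2 : ∀ i j, (if i = j then 0 else |A i j| / 2) * rval B s (i, j) =
      |A i j| * B i i / 2 + |A i j| * B j j / 2 + A i j * B i j -
        (if i = j then 2 * (A i i * B i i) else 0) := by
    intro i j
    unfold rval
    split_ifs with hij
    · subst hij
      rw [abs_of_nonneg (h.diag_nonneg i)]
      ring
    · have h3 := hs i j hij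
      have h4 : A i j * B i j = |A i j| * (s i j * B i j) := by
        calc A i j * B i j = (s i j * |A i j|) * B i j := by rw [← h3]
          _ = _ := by ring
      rw [h4]
      ring
  have h3 : ∑ i, ∑ j, (if i = j then 0 else |A i j| / 2) * rval B s (i, j) =
      ∑ i, ∑ j, |A i j| * B i i / 2 + ∑ i, ∑ j, |A i j| * B j j / 2 + ∑ i, ∑ j, A i j * B i j -
        ∑ i, 2 * (A i i * B i i) := by
    simp_rw [h2]
    simp only [Finset.sum_sub_distrib, Finset.sum_add_distrib]
    congr 1
    apply Finset.sum_congr rfl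
    intro i _
    rw [Finset.sum_ite_eq]
    simp
  have h4 : ∑ i, ∑ j, |A i j| * B j j / 2 = ∑ i, ∑ j, |A i j| * B i i / 2 := by
    rw [Finset.sum_comm]
    apply Finset.sum_congr rfl
    intro i _
    apply Finset.sum_congr rfl
    intro j _
    rw [hA.apply i j]
  rw [h3, h4, h1]
  have h5 : ∑ i, (2 * A i i - ∑ j, |A i j|) * B i i =
      ∑ i, 2 * (A i i * B i i) - ∑ i, ∑ j, |A i j| * B i i := by
    rw [← Finset.sum_sub_distrib]
    apply Finset.sum_congr rfl
    intro i _
    rw [← Finset.sum_mul]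
    ring
  have h6 : ∑ i, ∑ j, |A i j| * B i i / 2 = (∑ i, ∑ j, |A i j| * B i i) / 2 := by
    rw [Finset.sum_div]
    apply Finset.sum_congr rfl
    intro i _
    rw [Finset.sum_div]
  rw [h5, h6]
  ring

theorem weight_eq {n : ℕ} {A : Matrix (Fin n) (Fin n) ℝ} (h : DD A) :
    weight A = ∑ i, (2 * A i i - ∑ j, |A i j|) + ∑ i, ∑ j, (if i = j then 0 else |A i j| / 2) := by
  have h1 : ∀ i, ∑ j, (if i = j then 0 else |A i j| / 2) = (∑ j, |A i j|) / 2 - A i i / 2 := by
    intro i
    have h2 : ∀ j, (if i = j then 0 else |A i j| / 2) =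
        |A i j| / 2 - if i = j then A i i / 2 else 0 := by
      intro j
      split_ifs with hij
      · subst hij
        rw [abs_of_nonneg (h.diag_nonneg i)]; ring
      · ring
    rw [Finset.sum_congr rfl fun j _ => h2 j, Finset.sum_sub_distrib, Finset.sum_ite_eq,
      Finset.sum_div]
    simp
  unfold weight
  rw [Finset.sum_congr rfl fun i (_ : i ∈ (Finset.univ : Finset (Fin n))) => h1 i,
    Finset.sum_sub_distrib (f := fun i => (∑ j, |A i j|) / 2), ← Finset.sum_div, ← Finset.sum_div]
  ring

theorem exists_small {n : ℕ} (hn : 0 < n) {A B : Matrix (Fin n) (Fin n) ℝ} (hA : A.IsSymm)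
    (hB : B.IsSymm) (hAB : A * B = 1) (h : DD A) (s : Fin n → Fin n → ℤ)
    (hs : ∀ i j, i ≠ j → A i j = s i j * |A i j|) :
    ∃ p : Fin n × Fin n, rval B s p * weight A ≤ n := by
  haveI : Nonempty (Fin n) := ⟨⟨0, hn⟩⟩
  obtain ⟨p, hp⟩ := Finite.exists_min (rval B s)
  refine ⟨p, ?_⟩
  rw [← trace_id hA hB hAB h s hs, weight_eq h, mul_add, Finset.mul_sum, Finset.mul_sum]
  apply add_le_add
  · apply Finset.sum_le_sum
    intro i _
    rw [mul_comm]
    apply mul_le_mul_of_nonneg_left _ (by linarith [h i])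
    have := hp (i, i)
    simpa [rval] using this
  · apply Finset.sum_le_sum
    intro i _
    rw [Finset.mul_sum]
    apply Finset.sum_le_sum
    intro j _
    rw [mul_comm]
    apply mul_le_mul_of_nonneg_left (hp (i, j))
    split_ifs
    · exact le_rfl
    · positivity

/-- the signs used for merging -/
noncomputable def sgs {n : ℕ} (A : Matrix (Fin n) (Fin n) ℝ) (i j : Fin n) : ℤ :=
  open Classical in if OffNonpos A then -1 else if 0 ≤ A i j then 1 else -1

theorem isSgn_sgs {n : ℕ} (A : Matrix (Fin n) (Fin n) ℝ) {i j : Fin n} (hij : i ≠ j) :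
    IsSgn A i j (sgs A i j) := by
  classical
  unfold sgs IsSgn
  split_ifs with h1 h2
  · refine ⟨Or.inr rfl, ?_⟩
    rw [abs_of_nonpos (h1 i j hij)]
    simp
  · refine ⟨Or.inl rfl, ?_⟩
    rw [abs_of_nonneg h2]
    simp
  · refine ⟨Or.inr rfl, ?_⟩
    rw [abs_of_neg (not_le.1 h2)]
    simp

theorem symm_of_posDef {n : ℕ} {A : Matrix (Fin n) (Fin n) ℝ} (hA : A.PosDef) : A.IsSymm := by
  have := hA.isHermitian
  rwa [Matrix.IsHermitian, Matrix.conjTranspose_eq_transpose_of_trivial] at this

/-- One step of the induction: a diagonally dominant positive definite matrix of size `n - 1` whose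
form is the restriction of the given one to a sublattice, and whose determinant is at most
`n / weight` times the determinant. -/
theorem step {n : ℕ} {A : Matrix (Fin (n + 1)) (Fin (n + 1)) ℝ} (hA : A.PosDef) (h : DD A)
    {m : ℝ} (hm : MinGe A m) : ∃ (A' : Matrix (Fin n) (Fin n) ℝ) (R : ℝ), A'.PosDef ∧ DD A' ∧
      MinGe A' m ∧ (OffNonpos A → OffNonpos A') ∧ A'.det = R * A.det ∧
      R * weight A ≤ (n + 1 : ℕ) := by
  have hdet : A.det ≠ 0 := hA.det_pos.ne'
  have hsA := symm_of_posDef hA
  have hsB : (A⁻¹).IsSymm := symm_of_posDef hA.inv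
  have hsym : ∀ a b, A⁻¹ a b = A⁻¹ b a := fun a b => (hsB.apply a b).symm
  obtain ⟨⟨a, b⟩, hp⟩ := exists_small (Nat.succ_pos n) hsA hsB
    (Matrix.mul_nonsing_inv _ (isUnit_iff_ne_zero.mpr hdet)) h (sgs A)
    (fun i j hij => (isSgn_sgs A hij).2)
  by_cases hab : a = b
  · subst hab
    refine ⟨del A a, _, posDef_del hA a, h.del a, minGe_del hm a, fun ho => ho.del a,
      det_del hdet a, ?_⟩
    simpa [rval] using hp
  · obtain ⟨b', rfl⟩ := Fin.exists_succAbove_eq (Ne.symm hab)
    set s := sgs A a (a.succAbove b') with hs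
    have hsg : IsSgn A a (a.succAbove b') s := isSgn_sgs A hab
    have hd1 : (sh A a (a.succAbove b') s).det ≠ 0 := by rwa [det_sh A hab]
    refine ⟨del (sh A a (a.succAbove b') s) a, (sh A a (a.succAbove b') s)⁻¹ a a,
      posDef_del (posDef_sh hA hab s) a,
      dd_merge hsA h a b' hsg, minGe_del (minGe_sh hm hab s) a, ?_,
      (det_del hd1 a).trans (by rw [det_sh A hab]), ?_⟩
    · intro ho
      have h1 : s = -1 := by rw [hs, sgs, if_pos ho]
      rw [h1]
      exact off_merge ho a b'
    · rw [inv_sh hdet hab]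
      simp only [rval, if_neg hab] at hp
      rw [← hs] at hp
      refine le_trans (le_of_eq ?_) hp
      congr 1
      rw [hsym (a.succAbove b') a]
      linear_combination (A⁻¹ (a.succAbove b') (a.succAbove b')) * hsg.sq

end Pool.Agent.V8H47.DDom
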