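import Mathlib

/-! Positive definite diagonally dominant matrices: deleting a row and merging two rows. -/

open Matrix Finset

namespace Pool.Agent.V8H47.DDom

/-- the value of the quadratic form with matrix `A` at an integral vector -/
noncomputable def q {n : ℕ} (A : Matrix (Fin n) (Fin n) ℝ) (x : Fin n → ℤ) : ℝ :=
  (fun i => (x i : ℝ)) ⬝ᵥ (A *ᵥ fun i => (x i : ℝ))

/-- all values of the form at nonzero integral vectors are at least `m` -/
def MinGe {n : ℕ} (A : Matrix (Fin n) (Fin n) ℝ) (m : ℝ) : Prop :=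
  ∀ x : Fin n → ℤ, x ≠ 0 → m ≤ q A x

/-- diagonally dominant: every diagonal entry is at least the sum of the absolute values of the
other entries of its row -/
def DD {n : ℕ} (A : Matrix (Fin n) (Fin n) ℝ) : Prop :=
  ∀ i, ∑ j, |A i j| ≤ 2 * A i i

/-- no positive entry outside of the diagonal -/
def OffNonpos {n : ℕ} (A : Matrix (Fin n) (Fin n) ℝ) : Prop :=
  ∀ i j, i ≠ j → A i j ≤ 0

theorem q_eq {n : ℕ} (A : Matrix (Fin n) (Fin n) ℝ) (x : Fin n → ℤ) :
    q A x = ∑ i, ∑ j, A i j * ((x i : ℝ) * x j) := by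
  unfold q dotProduct mulVec dotProduct
  apply Finset.sum_congr rfl
  intro i _
  rw [Finset.mul_sum]
  apply Finset.sum_congr rfl
  intro j _
  ring

theorem DD.diag_nonneg {n : ℕ} {A : Matrix (Fin n) (Fin n) ℝ} (h : DD A) (i : Fin n) :
    0 ≤ A i i := by
  have h1 := h i
  have h2 : 0 ≤ ∑ j, |A i j| := Finset.sum_nonneg fun _ _ => abs_nonneg _
  linarith

theorem DD.off_le {n : ℕ} {A : Matrix (Fin n) (Fin n) ℝ} (h : DD A) {i j : Fin n} (hij : i ≠ j) :
    |A i j| ≤ A i i := by
  have h1 := h i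
  have h2 : |A i i| + |A i j| ≤ ∑ k, |A i k| := by
    have h3 : ∑ k ∈ ({i, j} : Finset (Fin n)), |A i k| ≤ ∑ k, |A i k| :=
      Finset.sum_le_sum_of_subset_of_nonneg (Finset.subset_univ _) fun _ _ _ => abs_nonneg _
    rwa [Finset.sum_pair hij] at h3
  rw [abs_of_nonneg (h.diag_nonneg i)] at h2
  linarith

theorem MinGe.diag {n : ℕ} {A : Matrix (Fin n) (Fin n) ℝ} {m : ℝ} (h : MinGe A m) (i : Fin n) :
    m ≤ A i i := by
  have h1 := h (Pi.single i 1) (by
    intro h
    have := congrFun h i
    simp at this)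
  rw [q_eq] at h1
  rw [Finset.sum_eq_single i, Finset.sum_eq_single i] at h1
  · simpa using h1
  · intro j _ hj
    simp [Pi.single_eq_of_ne hj]
  · simp
  · intro j _ hj
    simp [Pi.single_eq_of_ne hj]
  · simp

/-! ### Deleting a row and the column with the same number -/

/-- delete the row and the column number `i` -/
def del {n : ℕ} (A : Matrix (Fin (n + 1)) (Fin (n + 1)) ℝ) (i : Fin (n + 1)) :
    Matrix (Fin n) (Fin n) ℝ :=
  A.submatrix i.succAbove i.succAbove

theorem det_del {n : ℕ} {A : Matrix (Fin (n + 1)) (Fin (n + 1)) ℝ} (hA : A.det ≠ 0)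
    (i : Fin (n + 1)) : (del A i).det = A⁻¹ i i * A.det := by
  have h1 := Matrix.adjugate_fin_succ_eq_det_submatrix A i i
  have h2 : ((-1 : ℝ)) ^ ((i : ℕ) + (i : ℕ)) = 1 := by
    rw [← two_mul, pow_mul]; simp
  rw [h2, one_mul] at h1
  unfold del
  rw [← h1, Matrix.inv_def, Matrix.smul_apply, smul_eq_mul, Ring.inverse_eq_inv']
  field_simp

theorem posDef_del {n : ℕ} {A : Matrix (Fin (n + 1)) (Fin (n + 1)) ℝ} (hA : A.PosDef)
    (i : Fin (n + 1)) : (del A i).PosDef :=
  hA.submatrix Fin.succAbove_right_injective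

theorem minGe_del {n : ℕ} {A : Matrix (Fin (n + 1)) (Fin (n + 1)) ℝ} {m : ℝ} (hm : MinGe A m)
    (i : Fin (n + 1)) : MinGe (del A i) m := by
  intro y hy
  have h1 := hm (Fin.insertNth i 0 y) (by
    intro h
    apply hy
    ext k
    have := congrFun h (i.succAbove k)
    simpa using this)
  rw [q_eq] at h1 ⊢
  rw [Fin.sum_univ_succAbove _ i] at h1
  simp only [Fin.insertNth_apply_same, Int.cast_zero, zero_mul, mul_zero, Finset.sum_const_zero,
    zero_add, Fin.insertNth_apply_succAbove] at h1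
  refine h1.trans (le_of_eq ?_)
  apply Finset.sum_congr rfl
  intro k _
  rw [Fin.sum_univ_succAbove _ i]
  simp [del]

theorem DD.del {n : ℕ} {A : Matrix (Fin (n + 1)) (Fin (n + 1)) ℝ} (h : DD A) (i : Fin (n + 1)) :
    DD (del A i) := by
  intro k
  have h1 := h (i.succAbove k)
  rw [Fin.sum_univ_succAbove _ i] at h1
  have h2 := abs_nonneg (A (i.succAbove k) i)
  simp only [DDom.del, Matrix.submatrix_apply]
  linarith

theorem OffNonpos.del {n : ℕ} {A : Matrix (Fin (n + 1)) (Fin (n + 1)) ℝ} (h : OffNonpos A)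
    (i : Fin (n + 1)) : OffNonpos (del A i) := by
  intro k l hkl
  exact h _ _ fun h1 => hkl (Fin.succAbove_right_injective h1)

/-! ### Merging -/

/-- the matrix of the form after the substitution `x_i = y_i - s y_j` -/
def sh {n : ℕ} (A : Matrix (Fin n) (Fin n) ℝ) (i j : Fin n) (s : ℤ) : Matrix (Fin n) (Fin n) ℝ :=
  transvection j i (-(s : ℝ)) * A * transvection i j (-(s : ℝ))

theorem transpose_tv {n : ℕ} (i j : Fin n) (c : ℝ) :
    (transvection i j c)ᵀ = transvection j i c := by
  simp [transvection, Matrix.transpose_add, Matrix.transpose_single]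

theorem sh_eq {n : ℕ} (A : Matrix (Fin n) (Fin n) ℝ) (i j : Fin n) (s : ℤ) :
    sh A i j s = (transvection i j (-(s : ℝ)))ᵀ * A * transvection i j (-(s : ℝ)) := by
  rw [transpose_tv]; rfl

theorem det_sh {n : ℕ} (A : Matrix (Fin n) (Fin n) ℝ) {i j : Fin n} (hij : i ≠ j) (s : ℤ) :
    (sh A i j s).det = A.det := by
  rw [sh, Matrix.det_mul, Matrix.det_mul, det_transvection_of_ne _ _ hij,
    det_transvection_of_ne _ _ hij.symm]
  ring

theorem tv_inj {n : ℕ} {i j : Fin n} (hij : i ≠ j) (c : ℝ) :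
    Function.Injective (transvection i j c).mulVec := by
  apply Matrix.mulVec_injective_of_isUnit
  rw [Matrix.isUnit_iff_isUnit_det, det_transvection_of_ne _ _ hij]
  exact isUnit_one

theorem posDef_sh {n : ℕ} {A : Matrix (Fin n) (Fin n) ℝ} (hA : A.PosDef) {i j : Fin n}
    (hij : i ≠ j) (s : ℤ) : (sh A i j s).PosDef := by
  have := hA.conjTranspose_mul_mul_same (B := transvection i j (-(s : ℝ))) (tv_inj hij _)
  rw [sh_eq]
  simpa [Matrix.conjTranspose_eq_transpose_of_trivial] using this

theorem q_sh {n : ℕ} (A : Matrix (Fin n) (Fin n) ℝ) {i j : Fin n} (hij : i ≠ j) (s : ℤ)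
    (y : Fin n → ℤ) : q (sh A i j s) y = q A (Function.update y i (y i - s * y j)) := by
  have h1 : (transvection i j (-(s : ℝ))) *ᵥ (fun k => (y k : ℝ)) =
      fun k => ((Function.update y i (y i - s * y j)) k : ℝ) := by
    ext k
    rw [transvection, Matrix.add_mulVec, Matrix.one_mulVec, Pi.add_apply]
    by_cases hk : k = i
    · subst hk
      simp [Matrix.single_mulVec]
      ring
    · simp [Matrix.single_mulVec, Function.update_of_ne hk]
  unfold q
  rw [← h1, sh_eq, ← Matrix.mulVec_mulVec, ← Matrix.mulVec_mulVec, Matrix.mulVec_transpose,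
    dotProduct_comm, ← Matrix.dotProduct_mulVec, dotProduct_comm]

theorem minGe_sh {n : ℕ} {A : Matrix (Fin n) (Fin n) ℝ} {m : ℝ} (hm : MinGe A m) {i j : Fin n}
    (hij : i ≠ j) (s : ℤ) : MinGe (sh A i j s) m := by
  intro y hy
  rw [q_sh A hij]
  apply hm
  intro h
  apply hy
  have hj : y j = 0 := by
    have := congrFun h j
    rwa [Function.update_of_ne hij.symm] at this
  ext k
  by_cases hk : k = i
  · subst hk
    have := congrFun h k
    rw [Function.update_self, hj] at this
    simpa using this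
  · have := congrFun h k
    rwa [Function.update_of_ne hk] at this

theorem inv_sh {n : ℕ} {A : Matrix (Fin n) (Fin n) ℝ} (hA : A.det ≠ 0) {i j : Fin n}
    (hij : i ≠ j) (s : ℤ) :
    (sh A i j s)⁻¹ i i = A⁻¹ i i + s * A⁻¹ j i + s * (A⁻¹ i j + s * A⁻¹ j j) := by
  have h1 : (sh A i j s)⁻¹ = transvection i j (s : ℝ) * A⁻¹ * transvection j i (s : ℝ) := by
    apply Matrix.inv_eq_left_inv
    unfold sh
    have e1 : transvection j i (s : ℝ) * transvection j i (-(s : ℝ)) = 1 := by
      rw [transvection_mul_transvection_same _ _ hij.symm]; simp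
    have e2 : transvection i j (s : ℝ) * transvection i j (-(s : ℝ)) = 1 := by
      rw [transvection_mul_transvection_same _ _ hij]; simp
    have e3 : A⁻¹ * A = 1 := Matrix.nonsing_inv_mul _ (isUnit_iff_ne_zero.mpr hA)
    calc transvection i j (s : ℝ) * A⁻¹ * transvection j i (s : ℝ) *
        (transvection j i (-(s : ℝ)) * A * transvection i j (-(s : ℝ)))
        = transvection i j (s : ℝ) * (A⁻¹ * ((transvection j i (s : ℝ) *
          transvection j i (-(s : ℝ))) * A)) * transvection i j (-(s : ℝ)) := by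
          simp only [Matrix.mul_assoc]
      _ = 1 := by rw [e1, Matrix.one_mul, e3, Matrix.mul_one, e2]
  rw [h1, mul_transvection_apply_same, transvection_mul_apply_same, transvection_mul_apply_same]

theorem sh_apply {n : ℕ} (A : Matrix (Fin n) (Fin n) ℝ) {i j : Fin n} (s : ℤ)
    {k l : Fin n} (hk : k ≠ j) (hl : l ≠ j) : sh A i j s k l = A k l := by
  rw [sh, mul_transvection_apply_of_ne _ _ _ _ hl, transvection_mul_apply_of_ne _ _ _ _ hk]

theorem sh_apply_right {n : ℕ} (A : Matrix (Fin n) (Fin n) ℝ) {i j : Fin n} (s : ℤ)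
    {k : Fin n} (hk : k ≠ j) : sh A i j s k j = A k j - s * A k i := by
  rw [sh, mul_transvection_apply_same, transvection_mul_apply_of_ne _ _ _ _ hk,
    transvection_mul_apply_of_ne _ _ _ _ hk]
  ring

theorem sh_apply_left {n : ℕ} (A : Matrix (Fin n) (Fin n) ℝ) {i j : Fin n} (s : ℤ)
    {l : Fin n} (hl : l ≠ j) : sh A i j s j l = A j l - s * A i l := by
  rw [sh, mul_transvection_apply_of_ne _ _ _ _ hl, transvection_mul_apply_same]
  ring

theorem sh_apply_same {n : ℕ} (A : Matrix (Fin n) (Fin n) ℝ) {i j : Fin n} (s : ℤ) :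
    sh A i j s j j = A j j - s * A i j - s * (A j i - s * A i i) := by
  rw [sh, mul_transvection_apply_same, transvection_mul_apply_same, transvection_mul_apply_same]
  ring

end Pool.Agent.V8H47.DDom
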